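import Pool.Agent.P.MP_e35cb8_ag.Mandal

/-!
The algebraic core: an ideal `I` of `A[X]` containing a monic quadratic polynomial.
-/

set_option autoImplicit false

namespace Pool.Agent.P.MP_e35cb8_ag

open Polynomial

section helpers

variable {R : Type*} [CommRing R] {K : Ideal R}

theorem mem1 {x1 y : R} (h1 : x1 ∈ K) (k1 : R) (h : y = k1 * x1) : y ∈ K :=
  h ▸ K.mul_mem_left _ h1

theorem mem2 {x1 x2 y : R} (h1 : x1 ∈ K) (h2 : x2 ∈ K) (k1 k2 : R)
    (h : y = k1 * x1 + k2 * x2) : y ∈ K :=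
  h ▸ K.add_mem (K.mul_mem_left _ h1) (K.mul_mem_left _ h2)

theorem mem3 {x1 x2 x3 y : R} (h1 : x1 ∈ K) (h2 : x2 ∈ K) (h3 : x3 ∈ K) (k1 k2 k3 : R)
    (h : y = k1 * x1 + k2 * x2 + k3 * x3) : y ∈ K :=
  h ▸ K.add_mem (mem2 h1 h2 k1 k2 rfl) (K.mul_mem_left _ h3)

theorem mem4 {x1 x2 x3 x4 y : R} (h1 : x1 ∈ K) (h2 : x2 ∈ K) (h3 : x3 ∈ K) (h4 : x4 ∈ K)
    (k1 k2 k3 k4 : R) (h : y = k1 * x1 + k2 * x2 + k3 * x3 + k4 * x4) : y ∈ K :=
  h ▸ K.add_mem (mem3 h1 h2 h3 k1 k2 k3 rfl) (K.mul_mem_left _ h4)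

theorem mul_mem_sq {x y : R} (hx : x ∈ K) (hy : y ∈ K) : x * y ∈ K ^ 2 := by
  rw [pow_two]; exact Ideal.mul_mem_mul hx hy

theorem cramer3 {E1 E2 E3 m11 m12 m13 m21 m22 m23 m31 m32 m33 : R}
    (hdet : m11 * m22 * m33 - m11 * m23 * m32 - m12 * m21 * m33 + m12 * m23 * m31
      + m13 * m21 * m32 - m13 * m22 * m31 = 1)
    (h1 : m11 * E1 + m12 * E2 + m13 * E3 ∈ K) (h2 : m21 * E1 + m22 * E2 + m23 * E3 ∈ K)
    (h3 : m31 * E1 + m32 * E2 + m33 * E3 ∈ K) : E1 ∈ K ∧ E2 ∈ K ∧ E3 ∈ K :=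
  ⟨mem3 h1 h2 h3 (m22 * m33 - m23 * m32) (m13 * m32 - m12 * m33) (m12 * m23 - m13 * m22)
      (by linear_combination (-E1) * hdet),
    mem3 h1 h2 h3 (m23 * m31 - m21 * m33) (m11 * m33 - m13 * m31) (m13 * m21 - m11 * m23)
      (by linear_combination (-E2) * hdet),
    mem3 h1 h2 h3 (m21 * m32 - m22 * m31) (m12 * m31 - m11 * m32) (m11 * m22 - m12 * m21)
      (by linear_combination (-E3) * hdet)⟩

end helpers

variable {A B : Type*} [CommRing A] [CommRing B]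

/-- The conductor of the image of `A` in `B`. -/
def cond (α : A[X] →+* B) : Ideal B where
  carrier := {β | ∀ γ : B, ∃ c : A, α (C c) = β * γ}
  zero_mem' := fun γ => ⟨0, by simp⟩
  add_mem' := by
    intro x y hx hy γ
    obtain ⟨c, hc⟩ := hx γ
    obtain ⟨d, hd⟩ := hy γ
    exact ⟨c + d, by rw [map_add, map_add, hc, hd, add_mul]⟩
  smul_mem' := by
    intro r x hx γ
    obtain ⟨c, hc⟩ := hx (r * γ)
    exact ⟨c, by rw [hc, smul_eq_mul]; ring⟩

theorem div_quad (a b : A) (f : A[X]) :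
    ∃ (q : A[X]) (c e : A), f = q * (X ^ 2 - C a * X - C b) + (C c * X - C e) := by
  induction f using Polynomial.induction_on with
  | C r => exact ⟨0, 0, -r, by simp⟩
  | add f g hf hg =>
    obtain ⟨q, c, e, rfl⟩ := hf
    obtain ⟨q', c', e', rfl⟩ := hg
    exact ⟨q + q', c + c', e + e', by simp only [map_add]; ring⟩
  | monomial n r h =>
    obtain ⟨q, c, e, h⟩ := h
    refine ⟨q * X + C c, c * a - e, -(c * b), ?_⟩
    rw [pow_succ, ← mul_assoc, h]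
    simp only [map_sub, map_mul, map_neg]; ring

theorem monic_quad (a b : A) : (X ^ 2 - C a * X - C b : A[X]).Monic := by
  nontriviality A
  monicity!

theorem lin_of_cond {α : A[X] →+* B} {β : B} (h : β ∈ cond α) :
    ∃ c e : A, α (C c) = β ∧ α (C c * X - C e) = 0 := by
  obtain ⟨c, hc⟩ := h 1
  obtain ⟨e, he⟩ := h (α X)
  rw [mul_one] at hc
  exact ⟨c, e, hc, by rw [map_sub, map_mul, hc, he, sub_self]⟩

theorem cond_of_lin {α : A[X] →+* B} (hα : Function.Surjective α) {a b : A}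
    (hf1 : α (X ^ 2 - C a * X - C b) = 0) {c e : A} (h : α (C c * X - C e) = 0) :
    α (C c) ∈ cond α := by
  intro γ
  obtain ⟨f, rfl⟩ := hα γ
  obtain ⟨q, u, v, rfl⟩ := div_quad a b f
  refine ⟨u * e - c * v, ?_⟩
  rw [map_add, map_mul, hf1]
  simp only [map_sub, map_mul] at h ⊢
  linear_combination (-α (C u)) * h

theorem der_mul {α : A[X] →+* B} {x : A[X]} (hx : α x = 0) (r : A[X]) :
    α (derivative (r * x)) = α r * α (derivative x) := by
  rw [derivative_mul, map_add, map_mul, map_mul, hx]; ring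

theorem der_sq {α : A[X] →+* B} {x : A[X]} (hx : x ∈ RingHom.ker α ^ 2) :
    α (derivative x) = 0 := by
  rw [pow_two] at hx
  refine Submodule.mul_induction_on hx ?_ ?_
  · intro r hr y hy
    rw [der_mul hy, (hr : α r = 0), zero_mul]
  · intro y z hy hz
    rw [map_add, map_add, hy, hz, add_zero]

theorem der_lin (α : A[X] →+* B) (c e : A) : α (derivative (C c * X - C e)) = α (C c) := by
  simp

theorem der_quad (α : A[X] →+* B) (a b : A) :
    α (derivative (X ^ 2 - C a * X - C b)) = 2 * α X - α (C a) := by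
  have : derivative (X ^ 2 - C a * X - C b : A[X]) = 2 * X - C a := by
    simp [derivative_X_pow, one_add_one_eq_two, map_ofNat]
  rw [this, map_sub, map_mul, map_ofNat]

theorem core_exact [IsNoetherianRing A] (α : A[X] →+* B) (ρ : B →+* A[X])
    (hρ : ∀ β, α (ρ β) = β) (a b : A) (hf1 : α (X ^ 2 - C a * X - C b) = 0)
    (ξ p : B) (hξ : 2 * α X - α (C a) = ξ ^ 2) (hp : 1 - ξ * p ∈ cond α)
    (hlift : ∀ x ∈ cond α, ∀ y ∈ cond α, cond α ≤ Ideal.span {x, y} ⊔ cond α ^ 2 →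
      ∃ x' y', Ideal.span {x', y'} = cond α ∧ x' - x ∈ cond α ^ 2 ∧ y' - y ∈ cond α ^ 2)
    (ε1 ε2 ε3 : A[X]) (h1 : α ε1 = 0) (h2 : α ε2 = 0) (h3 : α ε3 = 0)
    (d1 : α (derivative ε1) = 1) (d2 : α (derivative ε2) = 0) (d3 : α (derivative ε3) = 0)
    (hgen : ∀ f, α f = 0 → ∃ u v w : B,
      f - (ρ u * ε1 + ρ v * ε2 + ρ w * ε3) ∈ RingHom.ker α ^ 2) :
    ∃ g : Fin 3 → A[X], Ideal.span (Set.range g) = RingHom.ker α := by
  have hα : Function.Surjective α := fun β => ⟨ρ β, hρ β⟩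
  set I := RingHom.ker α with hI
  set 𝔠 := cond α with h𝔠
  set f1 : A[X] := X ^ 2 - C a * X - C b with hf1def
  have df1 : α (derivative f1) = ξ ^ 2 := by rw [hf1def, der_quad, hξ]
  have hmemI : ∀ {x}, α x = 0 → x ∈ I := fun h => h
  have hρI : ∀ r, r - ρ (α r) ∈ I := fun r => hmemI (by rw [map_sub, hρ, sub_self])
  -- the first coefficient of a representation is the derivative
  have R2 : ∀ (f : A[X]) (u v w : B), f - (ρ u * ε1 + ρ v * ε2 + ρ w * ε3) ∈ I ^ 2 →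
      α (derivative f) = u := by
    intro f u v w h
    have := der_sq h
    rw [map_sub, map_add, map_add, map_sub, map_add, map_add, der_mul h1, der_mul h2, der_mul h3,
      d1, d2, d3, hρ] at this
    linear_combination this
  have R3 : ∀ x ∈ 𝔠.comap α * I, ∃ u ∈ 𝔠, ∃ v ∈ 𝔠, ∃ w ∈ 𝔠,
      x - (ρ u * ε1 + ρ v * ε2 + ρ w * ε3) ∈ I ^ 2 := by
    intro x hx
    refine Submodule.mul_induction_on hx ?_ ?_
    · intro r hr y hy
      obtain ⟨u, v, w, h⟩ := hgen y hy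
      refine ⟨α r * u, 𝔠.mul_mem_right _ hr, α r * v, 𝔠.mul_mem_right _ hr, α r * w,
        𝔠.mul_mem_right _ hr, ?_⟩
      refine mem2 h (mul_mem_sq (hρI r) hy) (ρ (α r)) 1 ?_
      simp only [map_mul]; ring
    · rintro y z ⟨u, hu, v, hv, w, hw, h⟩ ⟨u', hu', v', hv', w', hw', h'⟩
      refine ⟨u + u', add_mem hu hu', v + v', add_mem hv hv', w + w', add_mem hw hw', ?_⟩
      refine mem2 h h' 1 1 ?_
      simp only [map_add]; ring
  -- division of elements of `I` with zero derivative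
  have L5 : ∀ x, α x = 0 → α (derivative x) = 0 → ∃ (q : A[X]) (c e : A),
      x = q * f1 + (C c * X - C e) ∧ α (C c * X - C e) = 0 ∧ α q ∈ 𝔠 := by
    intro x hx hdx
    obtain ⟨q, c, e, h⟩ := div_quad a b x
    have hn : α (C c * X - C e) = 0 := by
      rw [h, map_add, map_mul, hf1, mul_zero, zero_add] at hx; exact hx
    refine ⟨q, c, e, h, hn, ?_⟩
    rw [h, map_add, map_add, der_mul hf1, df1, der_lin] at hdx
    refine mem2 hp (cond_of_lin hα hf1 hn) (α q * (1 + ξ * p)) (-p ^ 2) ?_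
    linear_combination p ^ 2 * hdx
  obtain ⟨q2, c2, e2, hq2, hn2, hq2c⟩ := L5 (-ρ p * ε3) (by rw [map_mul, h3, mul_zero])
    (by rw [der_mul h3, d3, mul_zero])
  obtain ⟨q3, c3, e3, hq3, hn3, hq3c⟩ := L5 (ρ p * ε2) (by rw [map_mul, h2, mul_zero])
    (by rw [der_mul h2, d2, mul_zero])
  have hc2 : α (C c2) ∈ 𝔠 := cond_of_lin hα hf1 hn2
  have hc3 : α (C c3) ∈ 𝔠 := cond_of_lin hα hf1 hn3
  -- the conjugate map
  let α' : A[X] →+* B := eval₂RingHom (α.comp C) (α (C a) - α X)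
  have α'C : ∀ c, α' (C c) = α (C c) := fun c => by simp [α']
  have α'X : α' X = α (C a) - α X := by simp [α']
  have α'f1 : α' f1 = 0 := by
    simp only [hf1def, map_sub, map_mul, map_pow, α'C, α'X] at hf1 ⊢
    linear_combination hf1
  have α'lin : ∀ c e, α (C c * X - C e) = 0 → α' (C c * X - C e) = -ξ ^ 2 * α (C c) := by
    intro c e h
    simp only [map_sub, map_mul, α'C, α'X] at h ⊢
    linear_combination h - α (C c) * hξ
  have α'I : ∀ x, α x = 0 → α' x ∈ 𝔠 := by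
    intro x hx
    obtain ⟨q, c, e, h⟩ := div_quad a b x
    have hn : α (C c * X - C e) = 0 := by
      rw [h, map_add, map_mul, hf1, mul_zero, zero_add] at hx; exact hx
    rw [h, map_add, map_mul, α'f1, α'lin c e hn, mul_zero, zero_add]
    exact 𝔠.mul_mem_left _ (cond_of_lin hα hf1 hn)
  have α'I2 : ∀ x ∈ I ^ 2, α' x ∈ 𝔠 ^ 2 := by
    intro x hx
    have h4 : I.map α' ≤ 𝔠 := Ideal.map_le_iff_le_comap.2 fun x hx => α'I x hx
    have h5 := Ideal.mem_map_of_mem α' hx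
    rw [Ideal.map_pow] at h5
    exact Ideal.pow_right_mono h4 2 h5
  have α'ρ : ∀ z ∈ 𝔠, α' (ρ z) ∈ 𝔠 := by
    intro z hz
    obtain ⟨c, e, hc, -⟩ := lin_of_cond hz
    have h4 := α'I (ρ z - C c) (by rw [map_sub, hρ, hc, sub_self])
    rw [map_sub, α'C, hc] at h4
    simpa using add_mem h4 hz
  have S4 : 𝔠 ≤ Ideal.span {α (C c2), α (C c3)} ⊔ 𝔠 ^ 2 := by
    set K := Ideal.span {α (C c2), α (C c3)} ⊔ 𝔠 ^ 2 with hK
    have k2 : α (C c2) ∈ K := Ideal.mem_sup_left (Ideal.subset_span (by simp))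
    have k3 : α (C c3) ∈ K := Ideal.mem_sup_left (Ideal.subset_span (by simp))
    have kz := α'ρ _ hp
    rw [map_sub, map_one, map_mul, map_sub, map_one, map_mul] at kz
    have e2K : α' ε2 ∈ K := by
      have h4 := congrArg α' hq3
      rw [map_add, α'lin _ _ hn3, map_mul, map_mul, α'f1] at h4
      refine mem2 k3 (Ideal.mem_sup_right (mul_mem_sq kz (α'I _ h2))) (-ξ ^ 2 * α' (ρ ξ)) 1 ?_
      linear_combination α' (ρ ξ) * h4
    have e3K : α' ε3 ∈ K := by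
      have h4 := congrArg α' hq2
      rw [map_add, α'lin _ _ hn2, map_mul, map_mul, α'f1, map_neg] at h4
      refine mem2 k2 (Ideal.mem_sup_right (mul_mem_sq kz (α'I _ h3))) (ξ ^ 2 * α' (ρ ξ)) 1 ?_
      linear_combination -α' (ρ ξ) * h4
    intro β hβ
    obtain ⟨c, e, hc, hn⟩ := lin_of_cond hβ
    obtain ⟨u, v, w, h⟩ := hgen _ hn
    have hu : β = u := by rw [← R2 _ _ _ _ h, der_lin, hc]
    subst hu
    have h4 := α'I2 _ h
    rw [map_sub, α'lin _ _ hn, hc, map_add, map_add, map_mul, map_mul, map_mul] at h4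
    have h5 : ξ ^ 2 * β ∈ K :=
      mem4 (Ideal.mem_sup_right h4) (Ideal.mem_sup_right (mul_mem_sq (α'ρ _ hβ) (α'I _ h1)))
        e2K e3K (-1) (-1) (-α' (ρ v)) (-α' (ρ w)) (by ring)
    exact mem2 h5 (Ideal.mem_sup_right (mul_mem_sq hp hβ)) (p ^ 2) (1 + ξ * p) (by ring)
  obtain ⟨c2', c3', hspan, hc2', hc3'⟩ := hlift _ hc2 _ hc3 S4
  have S5 : ∀ t ∈ 𝔠 ^ 2, ∃ c e : A, α (C c) = t ∧ α (C c * X - C e) = 0 ∧
      C c * X - C e ∈ 𝔠.comap α * I := by
    intro t ht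
    rw [pow_two] at ht
    refine Submodule.mul_induction_on ht ?_ ?_
    · intro x hx y hy
      obtain ⟨u, -, hu, -⟩ := lin_of_cond hx
      obtain ⟨c, e, hc, hn⟩ := lin_of_cond hy
      have h4 : (C (u * c) * X - C (u * e) : A[X]) = C u * (C c * X - C e) := by
        simp only [map_mul]; ring
      refine ⟨u * c, u * e, by rw [map_mul, map_mul, hu, hc], by rw [h4, map_mul, hn, mul_zero], ?_⟩
      rw [h4]
      exact Ideal.mul_mem_mul (by rw [Ideal.mem_comap, hu]; exact hx) hn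
    · rintro x y ⟨c, e, hc, hn, hm⟩ ⟨c', e', hc', hn', hm'⟩
      have h4 : (C (c + c') * X - C (e + e') : A[X]) = (C c * X - C e) + (C c' * X - C e') := by
        simp only [map_add]; ring
      exact ⟨c + c', e + e', by rw [map_add, map_add, hc, hc'],
        by rw [h4, map_add, hn, hn', add_zero], h4 ▸ add_mem hm hm'⟩
  obtain ⟨k2, l2, hk2, hν2, hν2'⟩ := S5 _ hc2'
  obtain ⟨k3, l3, hk3, hν3, hν3'⟩ := S5 _ hc3'
  have hc2c : c2' ∈ 𝔠 := hspan ▸ Ideal.subset_span (by simp)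
  have hc3c : c3' ∈ 𝔠 := hspan ▸ Ideal.subset_span (by simp)
  have hqf2 : q2 * f1 ∈ 𝔠.comap α * I := Ideal.mul_mem_mul hq2c hf1
  have hqf3 : q3 * f1 ∈ 𝔠.comap α * I := Ideal.mul_mem_mul hq3c hf1
  obtain ⟨u2, -, γ2, hγ2, γ2', hγ2', hrep2⟩ := R3 _ (sub_mem hν2' hqf2)
  obtain ⟨u3, -, γ3, hγ3, γ3', hγ3', hrep3⟩ := R3 _ (sub_mem hν3' hqf3)
  have rep2 : (C (c2 + k2) * X - C (e2 + l2)) - (ρ u2 * ε1 + ρ γ2 * ε2 + ρ (γ2' - p) * ε3)
      ∈ I ^ 2 := by
    refine mem1 hrep2 1 ?_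
    simp only [map_add, map_sub]
    linear_combination -hq2
  have rep3 : (C (c3 + k3) * X - C (e3 + l3)) - (ρ u3 * ε1 + ρ (γ3 + p) * ε2 + ρ γ3' * ε3)
      ∈ I ^ 2 := by
    refine mem1 hrep3 1 ?_
    simp only [map_add, map_sub]
    linear_combination -hq3
  have hlead2 : α (C (c2 + k2)) = c2' := by rw [map_add, map_add, hk2]; ring
  have hlead3 : α (C (c3 + k3)) = c3' := by rw [map_add, map_add, hk3]; ring
  have hu2 : c2' = u2 := by rw [← R2 _ _ _ _ rep2, der_lin, hlead2]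
  have hu3 : c3' = u3 := by rw [← R2 _ _ _ _ rep3, der_lin, hlead3]
  subst hu2 hu3
  obtain ⟨u1, r0, s0, rep1⟩ := hgen f1 hf1
  have hu1 : ξ ^ 2 = u1 := by rw [← R2 _ _ _ _ rep1, df1]
  subst hu1
  -- corrections by `J + J X`
  have L7 : ∀ γ ∈ 𝔠, ∀ x, α x = 0 → α (derivative x) = 0 → ∃ j1 j0 : A,
      α (C j1) = 0 ∧ α (C j0) = 0 ∧ (C j1 * X - C j0) - ρ γ * x ∈ I ^ 2 := by
    intro γ hγ x hx hdx
    obtain ⟨q, c, e, hq, hn, hqc⟩ := L5 x hx hdx
    obtain ⟨u, u', hu, hν⟩ := lin_of_cond hγ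
    obtain ⟨y, y', hy, hν'⟩ := lin_of_cond hqc
    have key : (C (-(u * y * a) + u * y' + u' * y + u * c) * X
        - C (u * y * b + u' * y' + u * e)) - ρ γ * x ∈ I ^ 2 := by
      have m1 : (C u - ρ γ) * x ∈ I ^ 2 :=
        mul_mem_sq (hmemI (by rw [map_sub, hu, hρ, sub_self])) hx
      have m2 : (C y - q) * f1 ∈ I ^ 2 :=
        mul_mem_sq (hmemI (by rw [map_sub, hy, sub_self])) hf1
      have m3 : (C u * X - C u') * (C y * X - C y') ∈ I ^ 2 := mul_mem_sq hν hν'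
      refine mem3 m1 m2 m3 1 (C u) (-1) ?_
      simp only [map_add, map_mul, map_neg, hf1def] at hq ⊢
      linear_combination (-C u) * hq
    have hj1 : α (C (-(u * y * a) + u * y' + u' * y + u * c)) = 0 := by
      have := der_sq key
      rwa [map_sub, map_sub, der_lin, der_mul hx, hdx, mul_zero, sub_zero] at this
    refine ⟨_, _, hj1, ?_, key⟩
    have h4 : α _ = 0 := Ideal.pow_le_self two_ne_zero key
    rw [map_sub, map_sub, map_mul, map_mul, hj1, hx] at h4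
    linear_combination -h4
  have L8 : ∀ γ ∈ 𝔠, ∀ γ' ∈ 𝔠, ∃ j1 j0 : A, α (C j1) = 0 ∧ α (C j0) = 0 ∧
      (C j1 * X - C j0) - (ρ γ * ε2 + ρ γ' * ε3) ∈ I ^ 2 := by
    intro γ hγ γ' hγ'
    obtain ⟨j1, j0, hj1, hj0, h⟩ := L7 γ hγ ε2 h2 d2
    obtain ⟨j1', j0', hj1', hj0', h'⟩ := L7 γ' hγ' ε3 h3 d3
    refine ⟨j1 + j1', j0 + j0', by rw [map_add, map_add, hj1, hj1', add_zero],
      by rw [map_add, map_add, hj0, hj0', add_zero], mem2 h h' 1 1 ?_⟩
    simp only [map_add]; ring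
  -- the completing matrix
  obtain ⟨q0, r0', hz⟩ := Ideal.mem_span_pair.1 (hspan ▸ hp : 1 - ξ * p ∈ Ideal.span {c2', c3'})
  set z := 1 - ξ * p with hzdef
  set p' := p * (1 + z) with hp'
  set q' := z * q0 with hq'
  set r' := z * r0' with hr'
  have hone : ξ * p' + q' * c2' + r' * c3' = 1 := by
    rw [hp', hq', hr']
    linear_combination z * hz - (1 + z) * hzdef
  set t2 := p ^ 2 * (r0 - (-ξ * r' - (c2' + ξ * r'))) with ht2
  set t3 := p ^ 2 * (s0 - (ξ * q' + (ξ * q' - c3'))) with ht3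
  set m12 := -ξ * r' - (c2' + ξ * r') + ξ ^ 2 * t2 with hm12
  set m13 := ξ * q' + (ξ * q' - c3') + ξ ^ 2 * t3 with hm13
  set m22 := r' ^ 2 + c2' * t2 with hm22
  set m23 := -r' * q' - p' + c2' * t3 with hm23
  set m32 := -r' * q' + p' + c3' * t2 with hm32
  set m33 := q' ^ 2 + c3' * t3 with hm33
  have hdet : ξ ^ 2 * m22 * m33 - ξ ^ 2 * m23 * m32 - m12 * c2' * m33 + m12 * m23 * c3'
      + m13 * c2' * m32 - m13 * m22 * c3' = 1 := by
    rw [hm12, hm13, hm22, hm23, hm32, hm33]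
    linear_combination (ξ * p' + q' * c2' + r' * c3' + 1) * hone
  obtain ⟨j11, j10, hj11, hj10, hj1⟩ := L8 (m12 - r0)
    (mem1 hp (-(1 + ξ * p) * (r0 - (-ξ * r' - (c2' + ξ * r')))) (by rw [hm12, ht2, hzdef]; ring))
    (m13 - s0)
    (mem1 hp (-(1 + ξ * p) * (s0 - (ξ * q' + (ξ * q' - c3')))) (by rw [hm13, ht3, hzdef]; ring))
  obtain ⟨j21, j20, hj21, hj20, hj2⟩ := L8 (m22 - γ2)
    (mem3 hp hc2c hγ2 (r' * r0') t2 (-1) (by rw [hm22, hr']; ring))
    (m23 - (γ2' - p))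
    (mem3 hp hc2c hγ2' (-r' * q0 - p) t3 (-1) (by rw [hm23, hq', hp']; ring))
  obtain ⟨j31, j30, hj31, hj30, hj3⟩ := L8 (m32 - (γ3 + p))
    (mem3 hp hc3c hγ3 (-r' * q0 + p) t2 (-1) (by rw [hm32, hq', hp']; ring))
    (m33 - γ3')
    (mem3 hp hc3c hγ3' (q' * q0) t3 (-1) (by rw [hm33, hq']; ring))
  set a1 := a - j11 with ha1
  set b1 := b + j10 with hb1
  set c2A := c2 + k2 + j21 with hc2A
  set e2A := e2 + l2 + j20 with he2A
  set c3A := c3 + k3 + j31 with hc3A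
  set e3A := e3 + l3 + j30 with he3A
  set g1 : A[X] := X ^ 2 - C a1 * X - C b1 with hg1
  set g2 : A[X] := C c2A * X - C e2A with hg2
  set g3 : A[X] := C c3A * X - C e3A with hg3
  have G1 : g1 - (ρ (ξ ^ 2) * ε1 + ρ m12 * ε2 + ρ m13 * ε3) ∈ I ^ 2 := by
    refine mem2 rep1 hj1 1 1 ?_
    rw [hg1, ha1, hb1, hf1def]
    simp only [map_add, map_sub]; ring
  have G2 : g2 - (ρ c2' * ε1 + ρ m22 * ε2 + ρ m23 * ε3) ∈ I ^ 2 := by
    refine mem2 rep2 hj2 1 1 ?_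
    rw [hg2, hc2A, he2A]
    simp only [map_add, map_sub]; ring
  have G3 : g3 - (ρ c3' * ε1 + ρ m32 * ε2 + ρ m33 * ε3) ∈ I ^ 2 := by
    refine mem2 rep3 hj3 1 1 ?_
    rw [hg3, hc3A, he3A]
    simp only [map_add, map_sub]; ring
  have hεI : ∀ u v w : B, α (ρ u * ε1 + ρ v * ε2 + ρ w * ε3) = 0 := by
    intro u v w; simp [h1, h2, h3]
  have hI2 : ∀ {x : A[X]} {u v w : B}, x - (ρ u * ε1 + ρ v * ε2 + ρ w * ε3) ∈ I ^ 2 →
      α x = 0 := by
    intro x u v w h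
    have h4 : α _ = 0 := Ideal.pow_le_self two_ne_zero h
    rwa [map_sub, hεI, sub_zero] at h4
  have αg1 : α g1 = 0 := hI2 G1
  have αg2 : α g2 = 0 := hI2 G2
  have αg3 : α g3 = 0 := hI2 G3
  set F := Ideal.span (Set.range ![g1, g2, g3]) with hF
  have F1 : g1 ∈ F := Ideal.subset_span ⟨0, rfl⟩
  have F2 : g2 ∈ F := Ideal.subset_span ⟨1, rfl⟩
  have F3 : g3 ∈ F := Ideal.subset_span ⟨2, rfl⟩
  have hdet' := congrArg ρ hdet
  simp only [map_add, map_sub, map_mul, map_one] at hdet'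
  obtain ⟨E1, E2, E3⟩ := cramer3 (K := F ⊔ I ^ 2) (E1 := ε1) (E2 := ε2) (E3 := ε3) hdet'
    (mem2 (Ideal.mem_sup_left F1) (Ideal.mem_sup_right G1) 1 (-1) (by ring))
    (mem2 (Ideal.mem_sup_left F2) (Ideal.mem_sup_right G2) 1 (-1) (by ring))
    (mem2 (Ideal.mem_sup_left F3) (Ideal.mem_sup_right G3) 1 (-1) (by ring))
  have T1 : I ≤ F ⊔ I ^ 2 := by
    intro x hx
    obtain ⟨u, v, w, h⟩ := hgen x hx
    exact mem4 (Ideal.mem_sup_right h) E1 E2 E3 1 (ρ u) (ρ v) (ρ w) (by ring)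
  have hJ : ∀ j : A, α (C j) = 0 → C j ∈ (I.comap C).map C := fun j hj =>
    Ideal.mem_map_of_mem _ hj
  have αc2A : α (C c2A) = c2' := by rw [hc2A, map_add, map_add, hlead2, hj21, add_zero]
  have αc3A : α (C c3A) = c3' := by rw [hc3A, map_add, map_add, hlead3, hj31, add_zero]
  have T2 : I ≤ F ⊔ (I.comap C).map C := by
    intro x hx
    obtain ⟨q, c, e, rfl⟩ := div_quad a1 b1 x
    have hn : α (C c * X - C e) = 0 := by
      have h4 : α _ = 0 := hx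
      rw [map_add, map_mul, αg1, mul_zero, zero_add] at h4; exact h4
    obtain ⟨β2, β3, hβ⟩ := Ideal.mem_span_pair.1
      (hspan ▸ cond_of_lin hα hf1 hn : α (C c) ∈ Ideal.span {c2', c3'})
    have hdec : ∀ β : B, ∃ u v : A, β = α (C u) + α (C v) * (α (C a1) - α X) := by
      intro β
      obtain ⟨f, rfl⟩ := hα β
      obtain ⟨q, u, v, rfl⟩ := div_quad a1 b1 f
      refine ⟨u * a1 - v, -u, ?_⟩
      rw [map_add, map_mul, αg1]
      simp only [map_sub, map_mul, map_neg]; ring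
    obtain ⟨x2, y2, rfl⟩ := hdec β2
    obtain ⟨x3, y3, rfl⟩ := hdec β3
    set i1 := c - (x2 * c2A + y2 * (c2A * a1 - e2A) + x3 * c3A + y3 * (c3A * a1 - e3A)) with hi1
    set i0 := e - (x2 * e2A - y2 * c2A * b1 + x3 * e3A - y3 * c3A * b1) with hi0
    have hdiff : (C c * X - C e : A[X]) = (C i1 * X - C i0) + ((C x2 + C y2 * X) * g2
        + (C x3 + C y3 * X) * g3 - (C y2 * C c2A + C y3 * C c3A) * g1) := by
      rw [hi1, hi0, hg1, hg2, hg3]
      simp only [map_add, map_sub, map_mul]; ring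
    have αi1 : α (C i1) = 0 := by
      rw [hg2] at αg2
      rw [hg3] at αg3
      rw [hi1]
      simp only [map_add, map_sub, map_mul, αc2A, αc3A] at αg2 αg3 ⊢
      linear_combination -hβ - α (C y2) * αg2 - α (C y3) * αg3
    have αi0 : α (C i0) = 0 := by
      have h4 := congrArg α hdiff
      rw [hn] at h4
      simp only [map_add, map_sub, map_mul, αi1, αg1, αg2, αg3] at h4
      linear_combination h4
    rw [hdiff]
    refine add_mem (Ideal.mem_sup_left (F.mul_mem_left _ F1)) (add_mem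
      (Ideal.mem_sup_right (sub_mem (Ideal.mul_mem_right _ _ (hJ _ αi1)) (hJ _ αi0)))
      (Ideal.mem_sup_left ?_))
    exact sub_mem (add_mem (F.mul_mem_left _ F2) (F.mul_mem_left _ F3)) (F.mul_mem_left _ F1)
  obtain ⟨g, hg, -⟩ := mandal I ![g1, g2, g3] 0 (monic_quad a1 b1) (by
      intro i; fin_cases i
      · exact αg1
      · exact αg2
      · exact αg3) (by
      refine T1.trans (sup_le le_sup_left ?_)
      rw [pow_two]
      refine (Ideal.mul_mono_left T2).trans ?_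
      rw [Ideal.sup_mul]
      exact sup_le_sup_right Ideal.mul_le_left _)
  exact ⟨g, hg⟩

theorem core [IsNoetherianRing A] (α : A[X] →+* B) (ρ : B →+* A[X])
    (hρ : ∀ β, α (ρ β) = β) (a b : A) (hf1 : α (X ^ 2 - C a * X - C b) = 0)
    (ξ p : B) (hξ : ξ ^ 2 - (2 * α X - α (C a)) ∈ cond α) (hp : 1 - ξ * p ∈ cond α)
    (hlift : ∀ x ∈ cond α, ∀ y ∈ cond α, cond α ≤ Ideal.span {x, y} ⊔ cond α ^ 2 →
      ∃ x' y', Ideal.span {x', y'} = cond α ∧ x' - x ∈ cond α ^ 2 ∧ y' - y ∈ cond α ^ 2)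
    (ε1 ε2 ε3 : A[X]) (h1 : α ε1 = 0) (h2 : α ε2 = 0) (h3 : α ε3 = 0)
    (d1 : α (derivative ε1) = 1) (d2 : α (derivative ε2) = 0) (d3 : α (derivative ε3) = 0)
    (hgen : ∀ f, α f = 0 → ∃ u v w : B,
      f - (ρ u * ε1 + ρ v * ε2 + ρ w * ε3) ∈ RingHom.ker α ^ 2) :
    ∃ g : Fin 3 → A[X], Ideal.span (Set.range g) = RingHom.ker α := by
  obtain ⟨c, e, hc, hn⟩ := lin_of_cond hξ
  refine core_exact α ρ hρ (a - c) (b + e) ?_ ξ p ?_ hp hlift ε1 ε2 ε3 h1 h2 h3 d1 d2 d3 hgen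
  · simp only [map_sub, map_add, map_mul, map_pow] at hf1 hn ⊢
    linear_combination hf1 + hn
  · simp only [map_sub]
    linear_combination hc

end Pool.Agent.P.MP_e35cb8_ag
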