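import Mathlib

/-!
Generic complex parameters (transcendence degree counting), Nullstellensatz corollaries,
ideals with countably many zeros, and square roots modulo such ideals.
-/

set_option autoImplicit false

namespace Pool.Agent.P.MP_e35cb8_ag

open Cardinal

theorem generic_exists (S : Set ℂ) (hS : S.Countable) (κ : Type) [Fintype κ] :
    ∃ θ : κ → ℂ, ∃ T : Set ℂ, T.Countable ∧
      ∀ (ι : Type) [Fintype ι] (z : ι → ℂ), (∀ i, θ i ∈ Subfield.closure (S ∪ Set.range z)) →
        Fintype.card κ ≤ Fintype.card ι ∧ (Fintype.card ι ≤ Fintype.card κ → ∀ j, z j ∈ T) := by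
  classical
  set F := Subfield.closure S with hF
  have hFc : #F ≤ ℵ₀ := by
    refine (Subfield.cardinalMk_closure_le_max S).trans ?_
    exact max_le (Cardinal.le_aleph0_iff_set_countable.2 hS) le_rfl
  haveI : Countable F := Cardinal.mk_le_aleph0_iff.1 hFc
  obtain ⟨ι0, x, hx⟩ := exists_isTranscendenceBasis' F ℂ
  have hC : ℵ₀ < #ℂ := by rw [Cardinal.mk_complex]; exact Cardinal.aleph0_lt_continuum
  have hι : #ℂ = #ι0 :=
    IsAlgClosed.cardinal_eq_cardinal_transcendence_basis_of_aleph0_lt' x hx hFc hC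
  haveI : Infinite ι0 := Cardinal.infinite_iff.2 (hι ▸ hC.le)
  let e : κ ↪ ι0 := (Fintype.equivFin κ).toEmbedding.trans
    (Fin.valEmbedding.trans (Infinite.natEmbedding ι0))
  let θ : κ → ℂ := x ∘ e
  have hθ : AlgebraicIndependent F θ := hx.1.comp e e.injective
  have hθinj : Function.Injective θ := hθ.injective
  let M := AlgebraicIndependent.matroid F ℂ
  have hind : M.Indep (Set.range θ) := by
    rw [AlgebraicIndependent.matroid_indep_iff]
    exact hθ.to_subtype_range
  have henc : (Set.range θ).encard = Fintype.card κ := by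
    rw [← Set.image_univ, hθinj.encard_image, Set.encard_univ]
    simp
  refine ⟨θ, M.closure (Set.range θ), ?_, ?_⟩
  · rw [AlgebraicIndependent.matroid_closure_eq]
    haveI : Countable (Algebra.adjoin F (Set.range θ)) := by
      rw [← Cardinal.mk_le_aleph0_iff]
      refine (Algebra.cardinalMk_adjoin_le F _).trans (max_le (max_le hFc ?_) le_rfl)
      exact Cardinal.le_aleph0_iff_set_countable.2 (Set.countable_range θ)
    exact Algebraic.countable (Algebra.adjoin F (Set.range θ)) ℂ
  · intro ι _ z hz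
    have hsub : Set.range θ ⊆ M.closure (Set.range z) := by
      rintro _ ⟨i, rfl⟩
      rw [AlgebraicIndependent.matroid_closure_eq, SetLike.mem_coe]
      refine Subfield.closure_induction
        (p := fun a _ => a ∈ Subalgebra.algebraicClosure (Algebra.adjoin F (Set.range z)) ℂ)
        ?_ ?_ ?_ ?_ ?_ ?_ (hz i)
      · rintro a (ha | ha)
        · exact isAlgebraic_algebraMap
            (⟨a, (Algebra.adjoin F (Set.range z)).algebraMap_mem
              (⟨a, Subfield.subset_closure ha⟩ : F)⟩ : Algebra.adjoin F (Set.range z))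
        · exact isAlgebraic_algebraMap
            (⟨a, Algebra.subset_adjoin ha⟩ : Algebra.adjoin F (Set.range z))
      · exact one_mem _
      · intro a b _ _ ha hb; exact add_mem ha hb
      · intro a _ ha; exact neg_mem ha
      · intro a _ ha; exact IsAlgebraic.inv ha
      · intro a b _ _ ha hb; exact mul_mem ha hb
    have hz' : (Set.range z).encard ≤ Fintype.card ι := by
      rw [← Set.image_univ]
      refine (Set.encard_image_le _ _).trans ?_
      rw [Set.encard_univ]; simp
    have h1 : M.eRk (M.closure (Set.range z)) ≤ Fintype.card ι := by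
      rw [Matroid.eRk_closure_eq]
      exact (M.eRk_le_encard _).trans hz'
    constructor
    · have := (hind.encard_le_eRk_of_subset hsub).trans h1
      rw [henc] at this
      exact_mod_cast this
    · intro hle j
      have hb : M.IsBasis (Set.range θ) (M.closure (Set.range z)) := by
        refine hind.isBasis_of_eRk_ge (Set.finite_range θ) hsub ?_ (M.closure_subset_ground _)
        rw [hind.eRk_eq_encard, henc]
        exact h1.trans (by exact_mod_cast hle)
      exact hb.subset_closure (M.subset_closure _ (Set.subset_univ _) ⟨j, rfl⟩)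

open MvPolynomial in
theorem nss_rad {σ : Type*} [Finite σ] (𝔞 : Ideal (MvPolynomial σ ℂ)) (p : MvPolynomial σ ℂ)
    (h : ∀ y : σ → ℂ, (∀ q ∈ 𝔞, eval y q = 0) → eval y p = 0) : p ∈ 𝔞.radical := by
  rw [← vanishingIdeal_zeroLocus_eq_radical (K := ℂ), mem_vanishingIdeal_iff]
  intro y hy
  rw [mem_zeroLocus_iff] at hy
  exact h y hy

open MvPolynomial in
theorem nss_top {σ : Type*} [Finite σ] (𝔞 : Ideal (MvPolynomial σ ℂ))
    (h : ∀ y : σ → ℂ, ¬ (∀ q ∈ 𝔞, eval y q = 0)) : 𝔞 = ⊤ := by
  rw [← Ideal.radical_eq_top, Ideal.eq_top_iff_one]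
  exact nss_rad 𝔞 1 fun y hy => (h y hy).elim

open Polynomial in
theorem linearIndependent_inv_sub {F E : Type*} [Field F] [CommRing E] [Algebra F E] {x : E}
    (H : Transcendental F x) (T : Set F) (w : T → E)
    (hw : ∀ a : T, (x - algebraMap F E a) * w a = 1) : LinearIndependent F w := by
  classical
  rw [transcendental_iff] at H
  refine linearIndependent_iff'.2 fun s m hm i hi ↦ ?_
  let b := s.prod fun j ↦ x - algebraMap F E j
  have h1 : ∀ i ∈ s, m i • (b * w i) =
      m i • (s.erase i).prod fun j ↦ x - algebraMap F E j := fun i hi ↦ by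
    simp_rw [b, ← s.prod_erase_mul _ hi, mul_assoc, hw i, mul_one]
  replace hm := congr(b * $(hm))
  simp_rw [mul_zero, Finset.mul_sum, mul_smul_comm, Finset.sum_congr rfl h1] at hm
  let p : Polynomial F := s.sum fun i ↦ .C (m i) * (s.erase i).prod fun j ↦ .X - .C (j : F)
  replace hm := congr(Polynomial.aeval (i : F) $(H p (by simp_rw [← hm, p, map_sum, map_mul,
    map_prod, map_sub, aeval_X, aeval_C, Algebra.smul_def])))
  have h2 : ∀ j ∈ s.erase i, m j * ((s.erase j).prod fun x ↦ (i : F) - x) = 0 := fun j hj ↦ by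
    have := Finset.mem_erase_of_ne_of_mem (Finset.ne_of_mem_erase hj).symm hi
    simp_rw [← (s.erase j).prod_erase_mul _ this, sub_self, mul_zero]
  simp_rw [map_zero, p, map_sum, map_mul, map_prod, map_sub, aeval_X,
    aeval_C, Algebra.algebraMap_self_apply, ← s.sum_erase_add _ hi,
    Finset.sum_eq_zero h2, zero_add] at hm
  exact eq_zero_of_ne_zero_of_mul_right_eq_zero (Finset.prod_ne_zero_iff.2 fun j hj ↦
    sub_ne_zero.2 fun h => (Finset.ne_of_mem_erase hj).symm (Subtype.ext h)) hm

open MvPolynomial in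
/-- An ideal with countably many zeros has algebraic quotient. -/
theorem alg_of_countable {σ : Type} [Finite σ] (𝔞 : Ideal (MvPolynomial σ ℂ))
    (h : {y : σ → ℂ | ∀ q ∈ 𝔞, eval y q = 0}.Countable) (b : MvPolynomial σ ℂ) :
    ∃ m : Polynomial ℂ, m.Monic ∧ Polynomial.aeval b m ∈ 𝔞 := by
  set V := {y : σ → ℂ | ∀ q ∈ 𝔞, eval y q = 0} with hV
  set π := Ideal.Quotient.mkₐ ℂ 𝔞
  have halg : IsAlgebraic ℂ (π b) := by
    by_contra H
    let T : Set ℂ := ((fun y => eval y b) '' V)ᶜ
    have hT : ∀ a : T, ∃ w, (π b - algebraMap ℂ _ a) * w = 1 := by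
      intro a
      have htop : 𝔞 ⊔ Ideal.span {b - C (a : ℂ)} = ⊤ := by
        apply nss_top
        intro y hy
        apply a.2
        refine ⟨y, fun q hq => hy q (Ideal.mem_sup_left hq), ?_⟩
        have := hy _ (Ideal.mem_sup_right (Ideal.subset_span rfl))
        simpa [sub_eq_zero] using this
      obtain ⟨u, hu, v, hv, huv⟩ := Submodule.mem_sup.1 ((Ideal.eq_top_iff_one _).1 htop)
      obtain ⟨w, rfl⟩ := Ideal.mem_span_singleton'.1 hv
      refine ⟨π w, ?_⟩
      have h0 : π u = 0 := Ideal.Quotient.eq_zero_iff_mem.2 hu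
      have := congrArg π huv
      rw [map_add, h0, zero_add, map_mul, map_sub, map_one, ← algebraMap_eq, AlgHom.commutes]
        at this
      rw [mul_comm]; exact this
    choose w hw using hT
    have hli := linearIndependent_inv_sub H T w hw
    have h1 : #T ≤ Module.rank ℂ (MvPolynomial σ ℂ ⧸ 𝔞) := hli.cardinal_le_rank
    have h2 : Module.rank ℂ (MvPolynomial σ ℂ ⧸ 𝔞) ≤ Module.rank ℂ (MvPolynomial σ ℂ) :=
      LinearMap.rank_le_of_surjective π.toLinearMap Ideal.Quotient.mk_surjective
    have h3 : Module.rank ℂ (MvPolynomial σ ℂ) ≤ ℵ₀ := by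
      rw [MvPolynomial.rank_eq]
      exact Cardinal.mk_le_aleph0
    have hTc : T.Countable := Cardinal.le_aleph0_iff_set_countable.1 (h1.trans (h2.trans h3))
    have : (Set.univ : Set ℂ).Countable := by
      rw [← Set.union_compl_self ((fun y => eval y b) '' V)]
      exact (h.image _).union hTc
    exact not_countable_complex this
  obtain ⟨m, hm, hm0⟩ := halg.isIntegral
  refine ⟨m, hm, ?_⟩
  rw [← Ideal.Quotient.eq_zero_iff_mem]
  change π _ = 0
  rw [← Polynomial.aeval_algHom_apply]
  exact hm0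

open Polynomial in
theorem exists_sq_poly (s : Multiset ℂ) :
    ∃ (q : ℂ[X]) (j : ℕ), (s.map fun a => X - C a).prod ∣ X ^ j * (q ^ 2 - X) := by
  induction s using Multiset.induction_on with
  | empty => exact ⟨0, 0, by simp⟩
  | cons a s ih =>
    obtain ⟨q, j, k, hk⟩ := ih
    rw [Multiset.map_cons, Multiset.prod_cons]
    set m := (s.map fun a => X - C a).prod
    by_cases ha : a = 0
    · refine ⟨q, j + 1, k, ?_⟩
      rw [ha, map_zero, sub_zero, pow_succ']
      linear_combination X * hk
    · have key : ∃ c : ℂ, k.eval a + a ^ j * (2 * q.eval a * c + m.eval a * c ^ 2) = 0 := by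
        by_cases hm : m.eval a = 0
        · have h1 := congrArg (eval a) hk
          simp only [eval_mul, eval_pow, eval_X, eval_sub, hm, zero_mul] at h1
          have h2 : q.eval a ^ 2 - a = 0 := (mul_eq_zero.1 h1).resolve_left (pow_ne_zero _ ha)
          have h3 : q.eval a ≠ 0 := by
            intro h; rw [h] at h2; apply ha; linear_combination -h2
          refine ⟨-k.eval a / (a ^ j * (2 * q.eval a)), ?_⟩
          rw [hm]; field_simp; ring
        · obtain ⟨c, hc⟩ := IsAlgClosed.exists_eq_mul_self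
            (discrim (a ^ j * m.eval a) (a ^ j * (2 * q.eval a)) (k.eval a))
          obtain ⟨x, hx⟩ := exists_quadratic_eq_zero (mul_ne_zero (pow_ne_zero j ha) hm) ⟨c, hc⟩
          exact ⟨x, by linear_combination hx⟩
      obtain ⟨c, hc⟩ := key
      have hroot : (X - C a) ∣ k + X ^ j * (2 * q * C c + m * C c ^ 2) := by
        rw [dvd_iff_isRoot, IsRoot.def]
        simpa using hc
      obtain ⟨k', hk'⟩ := hroot
      refine ⟨q + m * C c, j, k', ?_⟩
      linear_combination hk + m * hk'

open Polynomial in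
theorem exists_sq_mod {B : Type*} [CommRing B] [Algebra ℂ B] (𝔞 : Ideal B) (u v : B)
    (huv : u * v - 1 ∈ 𝔞) (m : ℂ[X]) (hm : m.Monic) (hmu : aeval u m ∈ 𝔞) :
    ∃ ξ : B, ξ ^ 2 - u ∈ 𝔞 := by
  obtain ⟨q, j, k, hk⟩ := exists_sq_poly m.roots
  rw [← (IsAlgClosed.splits m).eq_prod_roots_of_monic hm] at hk
  refine ⟨aeval u q, ?_⟩
  have h1 := congrArg (aeval u) hk
  simp only [map_mul, map_pow, map_sub, aeval_X] at h1
  rw [← Ideal.Quotient.eq_zero_iff_mem] at huv hmu ⊢
  have h2 := congrArg (Ideal.Quotient.mk 𝔞) h1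
  rw [map_mul, map_mul, hmu, zero_mul, map_pow] at h2
  rw [map_sub, map_mul, map_one, sub_eq_zero] at huv
  have h3 : (Ideal.Quotient.mk 𝔞 u * Ideal.Quotient.mk 𝔞 v) ^ j = 1 := by rw [huv, one_pow]
  rw [mul_pow] at h3
  linear_combination (Ideal.Quotient.mk 𝔞 v) ^ j * h2
    - (Ideal.Quotient.mk 𝔞 (aeval u q ^ 2 - u)) * h3

end Pool.Agent.P.MP_e35cb8_ag
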