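import Mathlib

/-!
Mandal's substitution: if an ideal `I` of `A[X]` is generated by `f i` (one of them monic) up to
`(I ∩ A) * I`, then it is generated by the same number of elements, congruent to `f i` mod `I ^ 2`.
-/

set_option autoImplicit false

namespace Pool.Agent.P.MP_e35cb8_ag

open Polynomial

theorem eval₂_scaleRoots_of_map_eq_zero {A S : Type*} [CommRing A] [CommRing S] (φ : A →+* S)
    {p : A[X]} (hp : p.Monic) {l : A} (hl : φ l = 0) (a : S) :
    eval₂ φ a (scaleRoots p l) = a ^ p.natDegree := by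
  have h : (scaleRoots p l).map φ = X ^ p.natDegree := by
    ext n
    rw [coeff_map, coeff_scaleRoots, coeff_X_pow]
    rcases lt_trichotomy n p.natDegree with h | h | h
    · rw [if_neg h.ne, map_mul, map_pow, hl, zero_pow (by omega), mul_zero]
    · subst h
      simp [hp.coeff_natDegree]
    · rw [if_neg h.ne', coeff_eq_zero_of_natDegree_lt h]
      simp
  rw [← eval_map, h]
  simp

theorem mandal_core {A : Type*} [CommRing A] {ι : Type*} (I : Ideal A[X]) (f : ι → A[X]) (i0 : ι)
    (hmon : (f i0).Monic) (hf : ∀ i, f i ∈ I) (s : A) (hs : C s ∈ I)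
    (hI : ∀ x ∈ I, (1 - C s) * x ∈ Ideal.span (Set.range f)) :
    ∃ g : ι → A[X], Ideal.span (Set.range g) = I ∧ ∀ i, g i - f i ∈ Ideal.span {C s} := by
  set l : A := 1 - s with hl
  let g : ι → A[X] := fun i => eval₂ C (C l * X + C s) (scaleRoots (f i) l)
  have hg : ∀ {S : Type _} [CommRing S] (π : A[X] →+* S) (i : ι),
      π (g i) = eval₂ (π.comp C) (π (C l) * π X + π (C s)) (scaleRoots (f i) l) := by
    intro S _ π i
    simp only [g]
    rw [hom_eval₂, map_add, map_mul]
  have hid : ∀ {S : Type _} [CommRing S] (π : A[X] →+* S) (p : A[X]),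
      eval₂ (π.comp C) (π X) p = π p := by
    intro S _ π p
    rw [← hom_eval₂, eval₂_C_X]
  have h1 : ∀ i, g i - f i ∈ Ideal.span {C s} := by
    intro i
    rw [← Ideal.Quotient.eq]
    set π := Ideal.Quotient.mk (Ideal.span {C s})
    have h0 : π (C s) = 0 := Ideal.Quotient.eq_zero_iff_mem.2 (Ideal.subset_span rfl)
    have hl1 : π (C l) = 1 := by rw [hl, map_sub, map_sub, h0]; simp
    rw [hg π i, h0, add_zero]
    have := scaleRoots_eval₂_mul (p := f i) (π.comp C) (π X) l
    rw [RingHom.comp_apply] at this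
    rw [this, hl1, one_pow, one_mul, hid]
  have h2 : g i0 - 1 ∈ Ideal.span {C l} := by
    rw [← Ideal.Quotient.eq]
    set π := Ideal.Quotient.mk (Ideal.span {C l})
    have h0 : π (C l) = 0 := Ideal.Quotient.eq_zero_iff_mem.2 (Ideal.subset_span rfl)
    have hs1 : π (C s) = 1 := by
      have h3 : (C s : A[X]) = 1 - C l := by rw [hl, map_sub, map_one]; ring
      rw [h3, map_sub π, h0]; simp
    rw [hg π i0, eval₂_scaleRoots_of_map_eq_zero (π.comp C) hmon h0, h0, hs1]
    simp
  refine ⟨g, le_antisymm ?_ ?_, h1⟩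
  · rw [Ideal.span_le]
    rintro _ ⟨i, rfl⟩
    have : g i = (g i - f i) + f i := by ring
    rw [SetLike.mem_coe, this]
    refine I.add_mem ?_ (hf i)
    exact (Ideal.span_le.2 (by simpa using hs) : Ideal.span {C s} ≤ I) (h1 i)
  · set π := Ideal.Quotient.mk (Ideal.span (Set.range g)) with hπ
    have hg0 : ∀ i, π (g i) = 0 := fun i =>
      Ideal.Quotient.eq_zero_iff_mem.2 (Ideal.subset_span ⟨i, rfl⟩)
    obtain ⟨u, hu⟩ := Ideal.mem_span_singleton'.1 h2
    have hv : π (C l) * π (-u) = 1 := by
      have := congrArg π hu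
      rw [map_mul, map_sub π, hg0, map_one] at this
      rw [map_neg]
      linear_combination -this
    set v := π (-u)
    let θ : A[X] →+* _ := eval₂RingHom (π.comp C) (π X + π (C s) * v)
    have hθf : ∀ i, θ (f i) = 0 := by
      intro i
      have h3 := hg π i
      rw [hg0] at h3
      have h4 := scaleRoots_eval₂_mul (p := f i) (π.comp C) (π X + π (C s) * v) l
      rw [RingHom.comp_apply] at h4
      have h5 : π (C l) * (π X + π (C s) * v) = π (C l) * π X + π (C s) := by
        linear_combination π (C s) * hv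
      rw [h5, ← h3] at h4
      have h6 : θ (f i) = eval₂ (π.comp C) (π X + π (C s) * v) (f i) := rfl
      rw [h6]
      have h7 : (v * π (C l)) ^ (f i).natDegree = 1 := by rw [mul_comm, hv, one_pow]
      rw [mul_pow] at h7
      linear_combination (-(eval₂ (π.comp C) (π X + π (C s) * v) (f i))) * h7
        - v ^ (f i).natDegree * h4
    have hθ : ∀ x ∈ Ideal.span (Set.range f), θ x = 0 := by
      intro x hx
      have : Ideal.span (Set.range f) ≤ RingHom.ker θ := by
        rw [Ideal.span_le]
        rintro _ ⟨i, rfl⟩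
        exact hθf i
      exact this hx
    have hθC : ∀ a : A, θ (C a) = π (C a) := fun a => by simp [θ]
    have hs0 : π (C s) = 0 := by
      have h3 := hθ _ (hI _ hs)
      have h4 : (1 - C s : A[X]) = C l := by rw [hl, map_sub, map_one]
      rw [h4, map_mul, hθC, hθC] at h3
      linear_combination v * h3 - π (C s) * hv
    have hθπ : ∀ p, θ p = π p := by
      intro p
      have h6 : θ p = eval₂ (π.comp C) (π X + π (C s) * v) p := rfl
      rw [h6, hs0, zero_mul, add_zero, hid]
    intro x hx
    have h3 := hθ _ (hI x hx)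
    rw [hθπ, map_mul, map_sub, hs0, sub_zero, map_one, one_mul] at h3
    exact Ideal.Quotient.eq_zero_iff_mem.1 h3

theorem mandal {A : Type*} [CommRing A] [IsNoetherianRing A] {ι : Type*} (I : Ideal A[X])
    (f : ι → A[X]) (i0 : ι) (hmon : (f i0).Monic) (hf : ∀ i, f i ∈ I)
    (hI : I ≤ Ideal.span (Set.range f) ⊔ (I.comap C).map C * I) :
    ∃ g : ι → A[X], Ideal.span (Set.range g) = I ∧ ∀ i, g i - f i ∈ I ^ 2 := by
  set F := Ideal.span (Set.range f) with hF
  haveI : Module.Finite A (A[X] ⧸ F) := by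
    haveI := hmon.finite_quotient
    have hle : Ideal.span {f i0} ≤ F := Ideal.span_mono (by rintro _ rfl; exact ⟨i0, rfl⟩)
    exact Module.Finite.of_surjective (Ideal.Quotient.factorₐ A hle).toLinearMap
      (Ideal.Quotient.factor_surjective hle)
  let π := Ideal.Quotient.mkₐ A F
  let P : Submodule A (A[X] ⧸ F) := (I.restrictScalars A).map π.toLinearMap
  have hP : P.FG := IsNoetherian.noetherian P
  have hle : P ≤ (I.comap C) • P := by
    rintro _ ⟨x, hx, rfl⟩
    obtain ⟨y, hy, z, hz, rfl⟩ := Submodule.mem_sup.1 (hI hx)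
    have hy0 : π y = 0 := Ideal.Quotient.eq_zero_iff_mem.2 hy
    change π (y + z) ∈ _
    rw [map_add, hy0, zero_add]
    refine Submodule.mul_induction_on hz ?_ ?_
    · intro a ha b hb
      induction ha using Submodule.span_induction generalizing b with
      | mem a ha =>
        obtain ⟨j, hj, rfl⟩ := ha
        rw [← smul_eq_C_mul, map_smul]
        exact Submodule.smul_mem_smul hj ⟨b, hb, rfl⟩
      | zero => simp
      | add a a' _ _ h h' =>
        rw [add_mul, map_add]
        exact Submodule.add_mem _ (h b hb) (h' b hb)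
      | smul r a _ h =>
        rw [smul_eq_mul, mul_comm r a, mul_assoc]
        exact h _ (I.mul_mem_left r hb)
    · intro a b ha hb
      rw [map_add]
      exact Submodule.add_mem _ ha hb
  obtain ⟨r, hr, hr0⟩ :=
    Submodule.exists_sub_one_mem_and_smul_eq_zero_of_fg_of_le_smul (I.comap C) P hP hle
  have hr' : C (1 - r) ∈ I := by
    have := I.neg_mem (Ideal.mem_comap.1 hr)
    rwa [← map_neg, neg_sub] at this
  obtain ⟨g, hg1, hg2⟩ := mandal_core I f i0 hmon hf ((1 - r) ^ 2)
    (by rw [map_pow]; exact I.pow_mem_of_mem hr' 2 (by norm_num)) (by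
      intro x hx
      have h1 : π (r • x) = 0 := by rw [map_smul]; exact hr0 _ ⟨x, hx, rfl⟩
      have h2 : r • x ∈ F := Ideal.Quotient.eq_zero_iff_mem.1 h1
      rw [smul_eq_C_mul] at h2
      have : (1 - C ((1 - r) ^ 2)) * x = (2 - C r) * (C r * x) := by
        simp only [map_pow, map_sub, map_one]; ring
      rw [this]
      exact F.mul_mem_left _ h2)
  refine ⟨g, hg1, fun i => ?_⟩
  refine (Ideal.span_le.2 ?_ : Ideal.span {C ((1 - r) ^ 2)} ≤ I ^ 2) (hg2 i)
  rintro _ rfl
  rw [SetLike.mem_coe, map_pow]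
  exact Ideal.pow_mem_pow hr' 2

end Pool.Agent.P.MP_e35cb8_ag
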