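import Pool.Agent.P.MP_e35cb8_ag.Unimod
import Pool.Agent.P.MP_e35cb8_ag.Mandal

/-!
A pair of generators of `𝔠 / 𝔠 ^ 2` lifts to a pair of generators of `𝔠`, for an ideal `𝔠` of
`ℂ[Y₁, Y₂]` with countably many zeros.
-/

set_option autoImplicit false

namespace Pool.Agent.P.MP_e35cb8_ag

open MvPolynomial

theorem le_sup_pow {R : Type*} [CommRing R] {N 𝔠 : Ideal R} (h : 𝔠 ≤ N ⊔ 𝔠 ^ 2) (k : ℕ) :
    𝔠 ≤ N ⊔ 𝔠 ^ (k + 1) := by
  induction k with
  | zero => simp
  | succ k ih =>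
    refine h.trans (sup_le le_sup_left ?_)
    rw [pow_two]
    refine (Ideal.mul_mono_left ih).trans ?_
    rw [Ideal.sup_mul, ← pow_succ]
    exact sup_le_sup_right Ideal.mul_le_left _

theorem countable_zeros (x1 : B2) (hx1 : (finSuccEquiv ℂ 1 x1).Monic) (w : Polynomial ℂ)
    (hw : w.Monic) :
    {y : Fin 2 → ℂ | eval y x1 = 0 ∧ w.eval (y 1) = 0}.Countable := by
  have h : {y : Fin 2 → ℂ | eval y x1 = 0 ∧ w.eval (y 1) = 0} ⊆
      ⋃ t ∈ {t | w.IsRoot t}, (fun r => (Fin.cons r (fun _ => t) : Fin 2 → ℂ)) ''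
        {r | ((finSuccEquiv ℂ 1 x1).map (eval fun _ => t)).IsRoot r} := by
    rintro y ⟨h1, h2⟩
    have hy : y = (Fin.cons (y 0) (fun _ => y 1) : Fin 2 → ℂ) := by
      funext i; fin_cases i <;> rfl
    refine Set.mem_biUnion (x := y 1) h2 ⟨y 0, ?_, hy.symm⟩
    rw [hy, eval_eq_eval_mv_eval'] at h1
    exact h1
  refine Set.Countable.mono h ?_
  refine Set.Countable.biUnion (Polynomial.finite_setOfPred_isRoot hw.ne_zero).countable ?_
  intro t _
  exact ((Polynomial.finite_setOfPred_isRoot (hx1.map _).ne_zero).image _).countable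

theorem lift_two (𝔠 : Ideal B2) (hc : {y : Fin 2 → ℂ | ∀ q ∈ 𝔠, eval y q = 0}.Countable)
    (x y : B2) (hx : x ∈ 𝔠) (hy : y ∈ 𝔠) (h : 𝔠 ≤ Ideal.span {x, y} ⊔ 𝔠 ^ 2) :
    ∃ x' y' : B2, Ideal.span {x', y'} = 𝔠 ∧ x' - x ∈ 𝔠 ^ 2 ∧ y' - y ∈ 𝔠 ^ 2 := by
  classical
  set φ := finSuccEquiv ℂ 1 with hφ
  obtain ⟨u, hu, hu'⟩ := alg_of_countable 𝔠 hc (X 0)
  obtain ⟨w, hw, hw'⟩ := alg_of_countable 𝔠 hc (X 1)
  set w' : B2 := Polynomial.aeval (X 1) w with hw'def
  set x1 : B2 := x + (Polynomial.aeval (X 0) u) ^ 2 * X 0 ^ ((φ x).natDegree + 1) with hx1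
  have hx1x : x1 - x ∈ 𝔠 ^ 2 := by
    rw [hx1, add_sub_cancel_left]
    exact Ideal.mul_mem_right _ _ (Ideal.pow_mem_pow hu' 2)
  have hc2 : 𝔠 ^ 2 ≤ 𝔠 := Ideal.pow_le_self two_ne_zero
  have hx1c : x1 ∈ 𝔠 := by simpa using add_mem (hc2 hx1x) hx
  have hmon : (φ x1).Monic := by
    rw [hx1, map_add, map_mul, map_pow, map_pow, ← Polynomial.aeval_algHom_apply,
      finSuccEquiv_X_zero, Polynomial.aeval_X_left_eq_map]
    have h1 : ((u.map (algebraMap ℂ (MvPolynomial (Fin 1) ℂ))) ^ 2).Monic := (hu.map _).pow 2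
    refine Polynomial.Monic.add_of_right (h1.mul (Polynomial.monic_X_pow _)) ?_
    apply Polynomial.degree_lt_degree
    rw [h1.natDegree_mul (Polynomial.monic_X_pow _), Polynomial.natDegree_X_pow]
    omega
  have h1 : 𝔠 ≤ Ideal.span {x1, y} ⊔ 𝔠 ^ 2 := by
    refine h.trans (sup_le ?_ le_sup_right)
    rw [Ideal.span_le]
    rintro z (hz | hz)
    · have : z = x1 - (x1 - x) := by rw [hz]; ring
      rw [this]
      exact sub_mem (Ideal.mem_sup_left (Ideal.subset_span (by simp))) (Ideal.mem_sup_right hx1x)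
    · exact Ideal.mem_sup_left (Ideal.subset_span (Or.inr hz))
  have hfg : 𝔠.FG := IsNoetherian.noetherian 𝔠
  obtain ⟨r, hr, hr'⟩ := Submodule.exists_sub_one_mem_and_smul_le_of_fg_of_le_sup (I := 𝔠)
    (N := Ideal.span {x1, y}) (N' := 𝔠) (P := 𝔠) hfg le_rfl (by rwa [pow_two] at h1)
  have hr'' : ∀ q ∈ 𝔠, r * q ∈ Ideal.span {x1, y} := fun q hq =>
    hr' (Submodule.smul_mem_pointwise_smul q r 𝔠 hq)
  have hZ := countable_zeros x1 hmon w hw
  obtain ⟨μ, hμ⟩ : ∃ μ : ℂ, μ ∉ (fun p => -eval p y / eval p (r - 1) ^ 2) ''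
      {y : Fin 2 → ℂ | eval y x1 = 0 ∧ w.eval (y 1) = 0} := by
    by_contra hcon
    push Not at hcon
    exact not_countable_complex ((hZ.image _).mono fun μ _ => hcon μ)
  set y1 : B2 := y + C μ * (r - 1) ^ 2 with hy1
  have hy1y : y1 - y ∈ 𝔠 ^ 2 := by
    rw [hy1, add_sub_cancel_left]
    exact Ideal.mul_mem_left _ _ (Ideal.pow_mem_pow hr 2)
  have hy1c : y1 ∈ 𝔠 := by simpa using add_mem (hc2 hy1y) hy
  have h2 : 𝔠 ≤ Ideal.span {x1, y1} ⊔ 𝔠 ^ 2 := by
    refine h1.trans (sup_le ?_ le_sup_right)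
    rw [Ideal.span_le]
    rintro z (hz | hz)
    · exact Ideal.mem_sup_left (Ideal.subset_span (Or.inl hz))
    · have : z = y1 - (y1 - y) := by rw [Set.mem_singleton_iff.1 hz]; ring
      rw [this]
      exact sub_mem (Ideal.mem_sup_left (Ideal.subset_span (by simp))) (Ideal.mem_sup_right hy1y)
  have h3 : 𝔠 ≤ (Ideal.span {x1, y1} ⊔ Ideal.span {w'}).radical := by
    intro q hq
    apply nss_rad
    intro p hp
    have e1 : eval p x1 = 0 := hp _ (Ideal.mem_sup_left (Ideal.subset_span (by simp)))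
    have e2 : eval p y1 = 0 := hp _ (Ideal.mem_sup_left (Ideal.subset_span (by simp)))
    have e3 : eval p w' = 0 := hp _ (Ideal.mem_sup_right (Ideal.subset_span (by simp)))
    have e4 : w.eval (p 1) = 0 := by
      rw [hw'def, ← aeval_eq_eval, ← Polynomial.aeval_algHom_apply, aeval_X] at e3
      exact e3
    simp only [hy1, map_add, map_mul, map_pow, eval_C] at e2
    by_cases e5 : eval p (r - 1) = 0
    · rw [e5] at e2
      have e6 : eval p y = 0 := by simpa using e2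
      obtain ⟨a, b, hab⟩ := Ideal.mem_span_pair.1 (hr'' q hq)
      have e7 := congrArg (eval p) hab
      simp only [map_add, map_mul, e1, e6, mul_zero, add_zero] at e7
      rw [map_sub, map_one, sub_eq_zero] at e5
      rw [e5, one_mul] at e7
      exact e7.symm
    · exfalso
      apply hμ
      refine ⟨p, ⟨e1, e4⟩, ?_⟩
      field_simp
      linear_combination -e2
  obtain ⟨k, hk⟩ := Ideal.exists_pow_le_of_le_radical_of_fg h3 hfg
  have h4 : 𝔠 ≤ Ideal.span {x1, y1} ⊔ Ideal.span {w'} * 𝔠 := by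
    refine (le_sup_pow h2 k).trans (sup_le le_sup_left ?_)
    rw [pow_succ]
    refine (Ideal.mul_mono_left hk).trans ?_
    rw [Ideal.sup_mul]
    exact sup_le_sup_right Ideal.mul_le_left _
  set I := 𝔠.map φ with hI
  have hφw : φ w' = Polynomial.C (Polynomial.aeval (X 0) w) := by
    rw [hw'def, ← Polynomial.aeval_algHom_apply]
    have : φ (X 1) = Polynomial.C (X 0) := finSuccEquiv_X_succ (j := 0)
    rw [this]
    exact Polynomial.aeval_algHom_apply
      (Polynomial.CAlgHom : MvPolynomial (Fin 1) ℂ →ₐ[ℂ] _) (X 0) w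
  obtain ⟨g, hg1, hg2⟩ := mandal I ![φ x1, φ y1] 0 hmon (by
      intro i; fin_cases i
      · exact Ideal.mem_map_of_mem _ hx1c
      · exact Ideal.mem_map_of_mem _ hy1c) (by
      refine (Ideal.map_mono h4).trans ?_
      rw [Ideal.map_sup, Ideal.map_mul, Ideal.map_span, Ideal.map_span]
      refine sup_le_sup (Ideal.span_mono ?_) (Ideal.mul_mono_left ?_)
      · rintro _ ⟨_, (rfl | rfl), rfl⟩
        · exact ⟨0, rfl⟩
        · exact ⟨1, rfl⟩
      · rw [Ideal.span_le]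
        rintro _ ⟨_, rfl, rfl⟩
        rw [SetLike.mem_coe, hφw]
        refine Ideal.mem_map_of_mem _ ?_
        rw [Ideal.mem_comap, ← hφw]
        exact Ideal.mem_map_of_mem _ hw')
  have hback : ∀ (𝔞 : Ideal B2) (z), z ∈ 𝔞.map φ → φ.symm z ∈ 𝔞 := by
    intro 𝔞 z hz
    obtain ⟨a, ha, rfl⟩ := (Ideal.mem_map_iff_of_surjective φ φ.surjective).1 hz
    simpa using ha
  refine ⟨φ.symm (g 0), φ.symm (g 1), le_antisymm ?_ ?_, ?_, ?_⟩
  · rw [Ideal.span_le]
    rintro _ (rfl | rfl)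
    · exact hback _ _ (hI ▸ hg1 ▸ Ideal.subset_span ⟨0, rfl⟩)
    · exact hback _ _ (hI ▸ hg1 ▸ Ideal.subset_span ⟨1, rfl⟩)
  · intro q hq
    have : φ q ∈ Ideal.span (Set.range g) := hg1 ▸ Ideal.mem_map_of_mem _ hq
    obtain ⟨c, hc⟩ := (Submodule.mem_span_range_iff_exists_fun _).1 this
    rw [Fin.sum_univ_two] at hc
    refine Ideal.mem_span_pair.2 ⟨φ.symm (c 0), φ.symm (c 1), ?_⟩
    apply φ.injective
    simpa using hc
  · have := hg2 0
    rw [hI, ← Ideal.map_pow] at this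
    have := hback _ _ this
    simp only [map_sub, Matrix.cons_val_zero, AlgEquiv.symm_apply_apply] at this
    simpa using add_mem this hx1x
  · have := hg2 1
    rw [hI, ← Ideal.map_pow] at this
    have := hback _ _ this
    simp only [map_sub, Matrix.cons_val_one, Matrix.cons_val_zero, AlgEquiv.symm_apply_apply]
      at this
    simpa using add_mem this hy1y

end Pool.Agent.P.MP_e35cb8_ag
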