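import Pool.Agent.P.MP_e35cb8_ag.Core
import Pool.Agent.P.MP_e35cb8_ag.LiftTwo

/-!
From the geometric properties of the projection (finite, unramified, no triple points, countably
many double points) to three generators.
-/

set_option autoImplicit false

namespace Pool.Agent.P.MP_e35cb8_ag

open Polynomial

abbrev A4 : Type := MvPolynomial (Fin 4) ℂ

theorem chain {σ k S : Type*} [Fintype σ] [CommRing k] [CommRing S]
    (χ : MvPolynomial σ k →+* S) (D : MvPolynomial σ k → S)
    (hadd : ∀ r s, D (r + s) = D r + D s) (hC : ∀ c, D (MvPolynomial.C c) = 0)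
    (hmul : ∀ r s, D (r * s) = χ r * D s + χ s * D r) (r : MvPolynomial σ k) :
    D r = ∑ i, χ (MvPolynomial.pderiv i r) * D (MvPolynomial.X i) := by
  classical
  induction r using MvPolynomial.induction_on with
  | C c => simp [hC]
  | add r s hr hs => simp [hadd, hr, hs, add_mul, Finset.sum_add_distrib]
  | mul_X r j hr =>
    rw [hmul, hr]
    have : ∀ i, χ (MvPolynomial.pderiv i (r * MvPolynomial.X j)) * D (MvPolynomial.X i) =
        (if j = i then χ r * D (MvPolynomial.X i) else 0) +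
          χ (MvPolynomial.X j) * (χ (MvPolynomial.pderiv i r) * D (MvPolynomial.X i)) := by
      intro i
      rw [Derivation.leibniz, MvPolynomial.pderiv_X, Pi.single_apply]
      split_ifs <;> simp <;> ring
    simp only [this, Finset.sum_add_distrib, Finset.sum_ite_eq, Finset.mem_univ, if_true,
      Finset.mul_sum]

/-- Evaluation of a polynomial in `A4[X]` at a point of `ℂ⁴ × ℂ`. -/
noncomputable def ev (x : Fin 4 → ℂ) (t : ℂ) : A4[X] →+* ℂ :=
  eval₂RingHom (MvPolynomial.eval x) t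

@[simp] theorem ev_C (x : Fin 4 → ℂ) (t : ℂ) (a : A4) : ev x t (C a) = MvPolynomial.eval x a := by
  simp [ev]

@[simp] theorem ev_X (x : Fin 4 → ℂ) (t : ℂ) : ev x t X = t := by simp [ev]

theorem ev_eq (x : Fin 4 → ℂ) (t : ℂ) (f : A4[X]) :
    ev x t f = (f.map (MvPolynomial.eval x)).eval t := by
  simp [ev, eval₂_eq_eval_map]

section

variable (α : A4[X] →+* B2) (ρ : B2 →+* A4[X]) (hρ : ∀ β, α (ρ β) = β)
  (hρC : ∀ c : ℂ, ρ (MvPolynomial.C c) = C (MvPolynomial.C c))

include hρ hρC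

theorem point_of_ev (x : Fin 4 → ℂ) (t : ℂ) (h : ∀ f, α f = 0 → ev x t f = 0) :
    ∃ y : Fin 2 → ℂ, (∀ β, ev x t (ρ β) = MvPolynomial.eval y β) ∧
      ∀ f, ev x t f = MvPolynomial.eval y (α f) := by
  have h1 : (ev x t).comp ρ = MvPolynomial.eval fun j => ev x t (ρ (MvPolynomial.X j)) := by
    apply MvPolynomial.ringHom_ext
    · intro c; simp [hρC]
    · intro j; simp
  refine ⟨fun j => ev x t (ρ (MvPolynomial.X j)), fun β => RingHom.congr_fun h1 β, fun f => ?_⟩
  have h2 := h (f - ρ (α f)) (by rw [map_sub, hρ, sub_self])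
  rw [map_sub, sub_eq_zero] at h2
  rw [h2]
  exact RingHom.congr_fun h1 _

theorem no_double (T1 : ∀ y ξ : Fin 2 → ℂ,
      (∀ i, ∑ j, MvPolynomial.eval y (MvPolynomial.pderiv j (α (C (MvPolynomial.X i)))) * ξ j = 0) →
      ∑ j, MvPolynomial.eval y (MvPolynomial.pderiv j (α X)) * ξ j ≠ 1)
    (x : Fin 4 → ℂ) (t : ℂ) (h : ∀ f, α f = 0 → ev x t f = 0)
    (h' : ∀ f, α f = 0 → ev x t (derivative f) = 0) : False := by
  obtain ⟨y, hy, -⟩ := point_of_ev α ρ hρ hρC x t h
  have key : ∀ f, ev x t (derivative f) = ∑ j, MvPolynomial.eval y (MvPolynomial.pderiv j (α f))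
      * ev x t (derivative (ρ (MvPolynomial.X j))) := by
    intro f
    have h2 := h' (f - ρ (α f)) (by rw [map_sub, hρ, sub_self])
    rw [map_sub, map_sub, sub_eq_zero] at h2
    rw [h2]
    refine chain (MvPolynomial.eval y) (fun β => ev x t (derivative (ρ β))) ?_ ?_ ?_ (α f)
    · intro r s; simp
    · intro c; simp [hρC]
    · intro r s
      simp only [map_mul, derivative_mul, map_add, hy]; ring
  refine T1 y (fun j => ev x t (derivative (ρ (MvPolynomial.X j)))) (fun i => ?_) ?_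
  · rw [← key]; simp
  · rw [← key]; simp

theorem exists_quad (T0 : ∃ f : A4[X], f.Monic ∧ α f = 0)
    (T1 : ∀ y ξ : Fin 2 → ℂ,
      (∀ i, ∑ j, MvPolynomial.eval y (MvPolynomial.pderiv j (α (C (MvPolynomial.X i)))) * ξ j = 0) →
      ∑ j, MvPolynomial.eval y (MvPolynomial.pderiv j (α X)) * ξ j ≠ 1)
    (T3 : ∀ y y' y'' : Fin 2 → ℂ,
      (∀ i, MvPolynomial.eval y (α (C (MvPolynomial.X i))) =
        MvPolynomial.eval y' (α (C (MvPolynomial.X i)))) →
      (∀ i, MvPolynomial.eval y (α (C (MvPolynomial.X i))) =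
        MvPolynomial.eval y'' (α (C (MvPolynomial.X i)))) →
      MvPolynomial.eval y (α X) ≠ MvPolynomial.eval y' (α X) →
      MvPolynomial.eval y (α X) ≠ MvPolynomial.eval y'' (α X) →
      MvPolynomial.eval y' (α X) ≠ MvPolynomial.eval y'' (α X) → False) :
    ∃ a b : A4, α (X ^ 2 - C a * X - C b) = 0 := by
  classical
  obtain ⟨f0, hf0, hf0'⟩ := T0
  set I := RingHom.ker α with hI
  have : Module.Finite A4 (A4[X] ⧸ I) := by
    have := hf0.finite_quotient
    have hle : Ideal.span {f0} ≤ I := by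
      rw [Ideal.span_le]; rintro _ rfl; exact hf0'
    exact Module.Finite.of_surjective (Ideal.Quotient.factorₐ A4 hle).toLinearMap
      (Ideal.Quotient.factor_surjective hle)
  let π := Ideal.Quotient.mkₐ A4 I
  let N : Submodule A4 (A4[X] ⧸ I) := Submodule.span A4 {π X, 1}
  have hloc : ∀ 𝔪 : Ideal A4, 𝔪.IsMaximal → (⊤ : Submodule A4 (A4[X] ⧸ I)) ≤ N ⊔ 𝔪 • ⊤ := by
    intro 𝔪 h𝔪
    obtain ⟨x, rfl⟩ := MvPolynomial.isMaximal_iff_eq_vanishingIdeal_singleton.1 h𝔪
    have hsurj : Function.Surjective (mapRingHom (MvPolynomial.eval x) : A4[X] →+* ℂ[X]) :=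
      map_surjective _ fun c => ⟨MvPolynomial.C c, by simp⟩
    set Ix := I.map (mapRingHom (MvPolynomial.eval x)) with hIx
    obtain ⟨px, hpx⟩ : ∃ px : ℂ[X], Ix = Ideal.span {px} :=
      ⟨_, (Ideal.span_singleton_generator Ix).symm⟩
    have hdvd : ∀ f, α f = 0 → px ∣ f.map (MvPolynomial.eval x) := by
      intro f hf
      rw [← Ideal.mem_span_singleton, ← hpx]
      exact Ideal.mem_map_of_mem _ hf
    have hpx0 : px ≠ 0 := by
      rintro rfl
      exact (hf0.map _).ne_zero (zero_dvd_iff.1 (hdvd f0 hf0'))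
    have hroot : ∀ t, px.IsRoot t → ∀ f, α f = 0 → ev x t f = 0 := by
      intro t ht f hf
      rw [ev_eq]
      exact ht.dvd (hdvd f hf)
    have hnodup : px.roots.Nodup := by
      rw [Multiset.nodup_iff_count_le_one]
      intro t
      by_contra hcon
      rw [count_roots, not_le, one_lt_rootMultiplicity_iff_isRoot hpx0] at hcon
      refine no_double α ρ hρ hρC T1 x t (hroot t hcon.1) fun f hf => ?_
      obtain ⟨q, hq⟩ := hdvd f hf
      rw [ev_eq, ← derivative_map, hq, derivative_mul, eval_add, eval_mul, eval_mul,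
        hcon.1.eq_zero, hcon.2.eq_zero]
      ring
    have hdeg : px.natDegree ≤ 2 := by
      by_contra hcon
      rw [not_le, ← IsAlgClosed.card_roots_eq_natDegree, ← Multiset.toFinset_card_of_nodup hnodup,
        Finset.two_lt_card_iff] at hcon
      obtain ⟨t, t', t'', ht, ht', ht'', h1, h2, h3⟩ := hcon
      rw [Multiset.mem_toFinset, mem_roots hpx0] at ht ht' ht''
      obtain ⟨y, -, hy⟩ := point_of_ev α ρ hρ hρC x t (hroot t ht)
      obtain ⟨y', -, hy'⟩ := point_of_ev α ρ hρ hρC x t' (hroot t' ht')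
      obtain ⟨y'', -, hy''⟩ := point_of_ev α ρ hρ hρC x t'' (hroot t'' ht'')
      refine T3 y y' y'' (fun i => ?_) (fun i => ?_) ?_ ?_ ?_
      · rw [← hy, ← hy']; simp
      · rw [← hy, ← hy'']; simp
      · rw [← hy, ← hy']; simpa using h1
      · rw [← hy, ← hy'']; simpa using h2
      · rw [← hy', ← hy'']; simpa using h3
    intro m _
    obtain ⟨r, rfl⟩ := Ideal.Quotient.mk_surjective m
    have hlin : (r.map (MvPolynomial.eval x) % px).natDegree ≤ 1 := by
      have h1 := degree_mod_lt (r.map (MvPolynomial.eval x)) hpx0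
      by_cases h0 : r.map (MvPolynomial.eval x) % px = 0
      · simp [h0]
      · have := natDegree_lt_natDegree h0 h1
        omega
    obtain ⟨c1, c0, hc⟩ := exists_eq_X_add_C_of_natDegree_le_one hlin
    have hq : px * (r.map (MvPolynomial.eval x) / px) ∈ Ix := by
      rw [hpx]; exact Ideal.mul_mem_right _ _ (Ideal.subset_span rfl)
    obtain ⟨f, hf, hf'⟩ := (Ideal.mem_map_iff_of_surjective _ hsurj).1 hq
    set s := r - f - (C (MvPolynomial.C c1) * X + C (MvPolynomial.C c0)) with hs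
    have hs0 : s.map (MvPolynomial.eval x) = 0 := by
      rw [coe_mapRingHom] at hf'
      have := EuclideanDomain.div_add_mod (r.map (MvPolynomial.eval x)) px
      rw [hs, Polynomial.map_sub, Polynomial.map_sub, hf']
      simp only [Polynomial.map_add, Polynomial.map_mul, map_C, map_X, MvPolynomial.eval_C]
      linear_combination hc - this
    have hs1 : π s ∈ (MvPolynomial.vanishingIdeal ℂ {x} : Ideal A4) •
        (⊤ : Submodule A4 (A4[X] ⧸ I)) := by
      rw [s.as_sum_support_C_mul_X_pow, map_sum]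
      refine Submodule.sum_mem _ fun i _ => ?_
      rw [← smul_eq_C_mul, map_smul]
      refine Submodule.smul_mem_smul ?_ Submodule.mem_top
      rw [MvPolynomial.mem_vanishingIdeal_singleton_iff]
      have := congrArg (coeff · i) hs0
      simpa using this
    have hr : r = (MvPolynomial.C c1 : A4) • X + (MvPolynomial.C c0 : A4) • 1 + s + f := by
      rw [hs, smul_eq_C_mul, smul_eq_C_mul]; ring
    change π r ∈ _
    have hπf : π f = 0 := Ideal.Quotient.eq_zero_iff_mem.2 hf
    rw [hr, map_add, hπf, add_zero, map_add, map_add, map_smul, map_smul, map_one]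
    refine add_mem (Submodule.mem_sup_left ?_) (Submodule.mem_sup_right hs1)
    exact add_mem (N.smul_mem _ (Submodule.subset_span (by simp)))
      (N.smul_mem _ (Submodule.subset_span (by simp)))
  have htop : N.colon Set.univ = ⊤ := by
    by_contra hne
    obtain ⟨𝔪, h𝔪, hle⟩ := Ideal.exists_le_maximal _ hne
    obtain ⟨r, hr, hr'⟩ := Submodule.exists_sub_one_mem_and_smul_le_of_fg_of_le_sup (I := 𝔪)
      (N := N) (N' := ⊤) (P := ⊤) Module.Finite.fg_top le_rfl (hloc 𝔪 h𝔪)
    have h1 : r ∈ N.colon Set.univ := Submodule.mem_colon.2 fun m _ =>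
      hr' (Submodule.smul_mem_pointwise_smul m r ⊤ Submodule.mem_top)
    apply h𝔪.ne_top
    rw [Ideal.eq_top_iff_one]
    simpa using sub_mem (hle h1) hr
  have h2 : π (X ^ 2) ∈ N := by
    have h1 : (1 : A4) ∈ N.colon Set.univ := htop ▸ Submodule.mem_top
    have h3 := Submodule.mem_colon.1 h1 (π (X ^ 2)) (Set.mem_univ _)
    rwa [one_smul] at h3
  obtain ⟨a, b, hab⟩ := Submodule.mem_span_pair.1 h2
  refine ⟨a, b, ?_⟩
  change _ ∈ I
  rw [← Ideal.Quotient.eq_zero_iff_mem]
  change π _ = 0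
  have : (X ^ 2 - C a * X - C b : A4[X]) = X ^ 2 - (a • X + b • 1) := by
    rw [smul_eq_C_mul, smul_eq_C_mul]; ring
  rw [this, map_sub, map_add, map_smul, map_smul, map_one, hab, sub_self]

theorem exists_eps (f0 : A4[X]) (hf0 : α f0 = 0) (hd0 : α (derivative f0) = 1) :
    ∃ ε2 ε3 : A4[X], α ε2 = 0 ∧ α ε3 = 0 ∧ α (derivative ε2) = 0 ∧ α (derivative ε3) = 0 ∧
      ∀ f, α f = 0 → ∃ u v w : B2,
        f - (ρ u * f0 + ρ v * ε2 + ρ w * ε3) ∈ RingHom.ker α ^ 2 := by
  set I := RingHom.ker α with hI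
  set ψ := MvPolynomial.finSuccEquiv ℂ 4 with hψ
  have hψC : ∀ c, ψ (MvPolynomial.C c) = C (MvPolynomial.C c) := fun c => by
    simp [hψ, MvPolynomial.finSuccEquiv_apply]
  have hαC : ∀ c, α (C (MvPolynomial.C c)) = MvPolynomial.C c := fun c => by rw [← hρC, hρ]
  have hρI : ∀ r, α (r - ρ (α r)) = 0 := fun r => by rw [map_sub, hρ, sub_self]
  let F : Fin 5 → A4[X] := fun i => ψ (MvPolynomial.X i) - ρ (α (ψ (MvPolynomial.X i)))
  have hF : ∀ i, α (F i) = 0 := fun i => hρI _
  let L : (Fin 5 → B2) → A4[X] := fun x => ∑ i, ρ (x i) * F i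
  have hL : ∀ x, α (L x) = 0 := fun x => by simp [L, hF]
  let g : A4[X] → Fin 5 → B2 := fun r i => α (ψ (MvPolynomial.pderiv i (ψ.symm r)))
  have hA : ∀ r, r - ρ (α r) - L (g r) ∈ I ^ 2 := by
    intro r
    let μ := Ideal.Quotient.mk (I ^ 2)
    have := chain (μ.comp (ρ.comp (α.comp ψ.toRingEquiv.toRingHom)))
      (fun r => μ (ψ r - ρ (α (ψ r)))) (by intro r s; simp only [map_add, map_sub]; ring)
      (by intro c; simp only [hψC, hαC, hρC, sub_self, map_zero])
      (by
        intro r s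
        have h1 : μ ((ψ r - ρ (α (ψ r))) * (ψ s - ρ (α (ψ s)))) = 0 :=
          Ideal.Quotient.eq_zero_iff_mem.2 (mul_mem_sq (hρI _) (hρI _))
        change μ _ = μ (ρ (α (ψ r))) * _ + μ (ρ (α (ψ s))) * _
        simp only [map_mul, map_sub] at h1 ⊢
        linear_combination h1) (ψ.symm r)
    rw [← Ideal.Quotient.eq]
    simp only [AlgEquiv.apply_symm_apply] at this
    change μ _ = μ _
    rw [this]
    simp only [L, map_sum, map_mul]
    rfl
  have hB : ∀ (l : Fin 2) r, MvPolynomial.pderiv l (α r) =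
      ∑ i, g r i * MvPolynomial.pderiv l (α (ψ (MvPolynomial.X i))) := by
    intro l r
    have := chain (α.comp ψ.toRingEquiv.toRingHom) (fun r => MvPolynomial.pderiv l (α (ψ r)))
      (by intro r s; simp only [map_add]) (by intro c; simp [hψC, hαC])
      (by
        intro r s
        change _ = α (ψ r) * _ + α (ψ s) * _
        simp only [map_mul, Derivation.leibniz, smul_eq_mul]) (ψ.symm r)
    simp only [AlgEquiv.apply_symm_apply] at this
    exact this
  let lin : (Fin 5 → B2) → (Fin 5 → B2) →ₗ[B2] B2 := fun c => ∑ i, c i • LinearMap.proj i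
  have hlin : ∀ c x, lin c x = ∑ i, x i * c i := by
    intro c x; simp [lin, LinearMap.sum_apply, mul_comm]
  have hC : ∀ x, lin (fun i => α (derivative (F i))) x = α (derivative (L x)) := by
    intro x
    simp only [hlin, L, map_sum]
    exact Finset.sum_congr rfl fun i _ => by rw [der_mul (hF i), hρ]
  have hD : ∀ r, α r = 0 → r - L (g r) ∈ I ^ 2 := by
    intro r hr
    have := hA r
    rwa [hr, map_zero, sub_zero] at this
  have hE : ∀ β, L (g (ρ β)) ∈ I ^ 2 := by
    intro β
    have := hA (ρ β)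
    rw [hρ, sub_self, zero_sub] at this
    simpa using neg_mem this
  obtain ⟨x2, x3, hx2, hx3, hx⟩ := basis5 (g (ρ (MvPolynomial.X 0))) (g (ρ (MvPolynomial.X 1)))
    (g f0) (lin fun i => MvPolynomial.pderiv 0 (α (ψ (MvPolynomial.X i))))
    (lin fun i => MvPolynomial.pderiv 1 (α (ψ (MvPolynomial.X i))))
    (lin fun i => α (derivative (F i)))
    (by rw [hlin, ← hB, hρ]; simp) (by rw [hlin, ← hB, hρ]; simp) (by rw [hlin, ← hB, hρ]; simp)
    (by rw [hC]; exact der_sq (hE _)) (by rw [hC]; exact der_sq (hE _))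
    (by
      rw [hC]
      have := der_sq (hD f0 hf0)
      rw [map_sub, map_sub, hd0, sub_eq_zero] at this
      exact this.symm)
  refine ⟨L x2, L x3, hL _, hL _, by rw [← hC, hx2], by rw [← hC, hx3], fun f hf => ?_⟩
  obtain ⟨t0, t1, u, v, w, h⟩ := hx (g f)
  refine ⟨u, v, w, mem4 (hD f hf) (hE (MvPolynomial.X 0)) (hE (MvPolynomial.X 1)) (hD f0 hf0)
    1 (ρ t0) (ρ t1) (-ρ u) ?_⟩
  have : L (g f) = ρ t0 * L (g (ρ (MvPolynomial.X 0))) + ρ t1 * L (g (ρ (MvPolynomial.X 1)))
      + ρ u * L (g f0) + ρ v * L x2 + ρ w * L x3 := by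
    rw [h]
    simp only [L, Pi.add_apply, Pi.smul_apply, smul_eq_mul, map_add, map_mul, Finset.mul_sum,
      ← Finset.sum_add_distrib]
    exact Finset.sum_congr rfl fun i _ => by ring
  rw [this]; ring

theorem from_generic (T0 : ∃ f : A4[X], f.Monic ∧ α f = 0)
    (T1 : ∀ y ξ : Fin 2 → ℂ,
      (∀ i, ∑ j, MvPolynomial.eval y (MvPolynomial.pderiv j (α (C (MvPolynomial.X i)))) * ξ j = 0) →
      ∑ j, MvPolynomial.eval y (MvPolynomial.pderiv j (α X)) * ξ j ≠ 1)
    (T2 : {y : Fin 2 → ℂ | ∃ y' : Fin 2 → ℂ, (∀ i, MvPolynomial.eval y (α (C (MvPolynomial.X i))) =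
        MvPolynomial.eval y' (α (C (MvPolynomial.X i)))) ∧
        MvPolynomial.eval y (α X) ≠ MvPolynomial.eval y' (α X)}.Countable)
    (T3 : ∀ y y' y'' : Fin 2 → ℂ,
      (∀ i, MvPolynomial.eval y (α (C (MvPolynomial.X i))) =
        MvPolynomial.eval y' (α (C (MvPolynomial.X i)))) →
      (∀ i, MvPolynomial.eval y (α (C (MvPolynomial.X i))) =
        MvPolynomial.eval y'' (α (C (MvPolynomial.X i)))) →
      MvPolynomial.eval y (α X) ≠ MvPolynomial.eval y' (α X) →
      MvPolynomial.eval y (α X) ≠ MvPolynomial.eval y'' (α X) →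
      MvPolynomial.eval y' (α X) ≠ MvPolynomial.eval y'' (α X) → False) :
    ∃ g : Fin 3 → A4[X], Ideal.span (Set.range g) = RingHom.ker α := by
  obtain ⟨a, b, hf1⟩ := exists_quad α ρ hρ hρC T0 T1 T3
  have hα : Function.Surjective α := fun β => ⟨ρ β, hρ β⟩
  have hαC : ∀ c, α (C (MvPolynomial.C c)) = MvPolynomial.C c := fun c => by rw [← hρC, hρ]
  set 𝔠 := cond α with h𝔠
  set g := 2 * α X - α (C a) with hg
  have hevC : ∀ (y : Fin 2 → ℂ) (c : A4),
      MvPolynomial.eval (fun i => MvPolynomial.eval y (α (C (MvPolynomial.X i)))) c =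
        MvPolynomial.eval y (α (C c)) := by
    intro y c
    have : MvPolynomial.eval (fun i => MvPolynomial.eval y (α (C (MvPolynomial.X i)))) =
        (MvPolynomial.eval y).comp (α.comp C) := by
      apply MvPolynomial.ringHom_ext
      · intro c; simp [hαC]
      · intro i; simp
    exact RingHom.congr_fun this c
  have hdiv : ∀ f, α f = 0 → ∃ (q : A4[X]) (c e : A4),
      f = q * (X ^ 2 - C a * X - C b) + (C c * X - C e) ∧ α (C c * X - C e) = 0 := by
    intro f hf
    obtain ⟨q, c, e, h⟩ := div_quad a b f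
    refine ⟨q, c, e, h, ?_⟩
    rw [h, map_add, map_mul, hf1, mul_zero, zero_add] at hf
    exact hf
  have H2 : ∀ y : Fin 2 → ℂ, (∀ q ∈ 𝔠, MvPolynomial.eval y q = 0) →
      MvPolynomial.eval y g ≠ 0 := by
    intro y hy hgy
    set x : Fin 4 → ℂ := fun i => MvPolynomial.eval y (α (C (MvPolynomial.X i))) with hx
    have hE : ∀ f, ev x (MvPolynomial.eval y (α X)) f = MvPolynomial.eval y (α f) := by
      intro f
      have : ev x (MvPolynomial.eval y (α X)) = (MvPolynomial.eval y).comp α := by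
        apply Polynomial.ringHom_ext
        · intro c; simp [hx, hevC]
        · simp
      exact RingHom.congr_fun this f
    refine no_double α ρ hρ hρC T1 x (MvPolynomial.eval y (α X))
      (fun f hf => by rw [hE, hf, map_zero]) fun f hf => ?_
    obtain ⟨q, c, e, rfl, hn⟩ := hdiv f hf
    rw [hE, map_add, map_add, der_mul hf1, der_quad, der_lin, map_add, map_mul, hgy,
      hy _ (cond_of_lin hα hf1 hn)]
    ring
  have H3 : {y : Fin 2 → ℂ | ∀ q ∈ 𝔠, MvPolynomial.eval y q = 0}.Countable := by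
    refine T2.mono fun y hy => ?_
    set x : Fin 4 → ℂ := fun i => MvPolynomial.eval y (α (C (MvPolynomial.X i))) with hx
    obtain ⟨y', -, hy'⟩ := point_of_ev α ρ hρ hρC x (MvPolynomial.eval y (α (C a) - α X)) (by
      intro f hf
      obtain ⟨q, c, e, rfl, hn⟩ := hdiv f hf
      have h1 := hy _ (cond_of_lin hα hf1 hn)
      have h2 := congrArg (MvPolynomial.eval y) hn
      have h3 := congrArg (MvPolynomial.eval y) hf1
      simp only [map_sub, map_mul, map_add, map_pow, map_zero, ev_C, ev_X, hx, hevC] at h2 h3 ⊢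
      rw [h1] at h2 ⊢
      linear_combination (ev _ _ q) * h3 + h2)
    refine ⟨y', fun i => ?_, ?_⟩
    · rw [← hy']; simp [hx]
    · rw [← hy', ev_X]
      intro h
      apply H2 y hy
      simp only [hg, map_sub, map_mul, map_ofNat] at h ⊢
      linear_combination h
  have htop : 𝔠 ⊔ Ideal.span {g} = ⊤ := nss_top _ fun y hy =>
    H2 y (fun q hq => hy q (Ideal.mem_sup_left hq))
      (hy g (Ideal.mem_sup_right (Ideal.subset_span rfl)))
  obtain ⟨u, hu, v, hv, huv⟩ := Submodule.mem_sup.1 ((Ideal.eq_top_iff_one _).1 htop)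
  obtain ⟨v, rfl⟩ := Ideal.mem_span_singleton'.1 hv
  obtain ⟨m, hm, hmg⟩ := alg_of_countable 𝔠 H3 g
  obtain ⟨ξ, hξ⟩ := exists_sq_mod 𝔠 g v (mem1 hu (-1) (by linear_combination huv)) m hm hmg
  obtain ⟨c, e, hc, hn⟩ := lin_of_cond hu
  have hf0 : α (ρ v * (X ^ 2 - C a * X - C b) + (C c * X - C e)) = 0 := by
    rw [map_add, map_mul, hf1, hn]; ring
  have hd0 : α (derivative (ρ v * (X ^ 2 - C a * X - C b) + (C c * X - C e))) = 1 := by
    rw [map_add, map_add, der_mul hf1, der_quad, der_lin, hρ, hc]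
    linear_combination huv
  obtain ⟨ε2, ε3, h2, h3, d2, d3, hgen⟩ := exists_eps α ρ hρ hρC _ hf0 hd0
  exact core α ρ hρ a b hf1 ξ (ξ * v) hξ (mem2 hu hξ 1 (-v) (by linear_combination -huv))
    (fun x hx y hy h => lift_two 𝔠 H3 x y hx hy h) _ ε2 ε3 hf0 h2 h3 hd0 d2 d3 hgen

end

end Pool.Agent.P.MP_e35cb8_ag
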