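import Pool.Agent.P.MP_e35cb8_ag.Geom

/-!
Generic triangular change of coordinates, and the main theorem.
-/

set_option autoImplicit false

namespace Pool.Agent.P.MP_e35cb8_ag

open Polynomial

theorem monic_aeval {k A : Type*} [Field k] [CommRing A] [Nontrivial A] [Algebra k A] {n r : ℕ}
    (G : Fin n → A[X]) (hG : ∀ j, (G j).Monic) (hdeg : ∀ j, (G j).natDegree = r ^ (j : ℕ))
    (f : MvPolynomial (Fin n) k) (hf : f ≠ 0) (hr : ∀ v ∈ f.support, ∀ j, v j < r) :
    ∃ c : k, (c • MvPolynomial.aeval G f).Monic := by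
  classical
  let M : (Fin n →₀ ℕ) → A[X] := fun v => ∏ j, G j ^ v j
  have hM : ∀ v, (M v).Monic := fun v => monic_prod_of_monic _ _ fun j _ => (hG j).pow _
  have hMd : ∀ v, (M v).natDegree = ∑ j, v j * r ^ (j : ℕ) := by
    intro v
    rw [natDegree_prod_of_monic _ _ fun j _ => (hG j).pow _]
    exact Finset.sum_congr rfl fun j _ => by rw [(hG j).natDegree_pow, hdeg]
  have hinj : ∀ v ∈ f.support, ∀ w ∈ f.support, (M v).natDegree = (M w).natDegree → v = w := by
    intro v hv w hw h
    rw [hMd, hMd] at h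
    have h1 : finFunctionFinEquiv (fun j => (⟨v j, hr v hv j⟩ : Fin r)) =
        finFunctionFinEquiv (fun j => (⟨w j, hr w hw j⟩ : Fin r)) := by
      apply Fin.ext
      rw [finFunctionFinEquiv_apply, finFunctionFinEquiv_apply]
      exact h
    have h2 := finFunctionFinEquiv.injective h1
    ext j
    exact congrArg Fin.val (congrFun h2 j)
  obtain ⟨v0, hv0, hmax⟩ := Finset.exists_max_image f.support (fun v => (M v).natDegree)
    (MvPolynomial.support_nonempty.2 hf)
  have hc : f.coeff v0 ≠ 0 := MvPolynomial.mem_support_iff.1 hv0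
  refine ⟨(f.coeff v0)⁻¹, ?_⟩
  have hsum : MvPolynomial.aeval G f = ∑ v ∈ f.support, f.coeff v • M v := by
    rw [MvPolynomial.aeval_def, MvPolynomial.eval₂_eq']
    exact Finset.sum_congr rfl fun v _ => by rw [Algebra.smul_def]
  rw [hsum, ← Finset.add_sum_erase _ _ hv0, smul_add, smul_smul, inv_mul_cancel₀ hc, one_smul]
  refine (hM v0).add_of_left ?_
  refine (degree_smul_le _ _).trans_lt ((degree_sum_le _ _).trans_lt ?_)
  rw [Finset.sup_lt_iff (bot_lt_iff_ne_bot.2 (degree_ne_bot.2 (hM v0).ne_zero))]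
  intro v hv
  obtain ⟨hne, hv⟩ := Finset.mem_erase.1 hv
  refine (degree_smul_le _ _).trans_lt (degree_lt_degree ?_)
  exact lt_of_le_of_ne (hmax v hv) fun h => hne (hinj v hv v0 hv0 h)

theorem main (α0 : MvPolynomial (Fin 5) ℂ →ₐ[ℂ] MvPolynomial (Fin 2) ℂ)
    (hα0 : Function.Surjective α0) :
    ∃ f : Fin 3 → MvPolynomial (Fin 5) ℂ, Ideal.span (Set.range f) = RingHom.ker α0 := by
  classical
  obtain ⟨f0, hf0, hf0'⟩ : ∃ f0, f0 ≠ 0 ∧ α0 f0 = 0 := by
    by_contra hcon
    push Not at hcon
    have hinj : Function.Injective α0 := by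
      rw [injective_iff_map_eq_zero]
      intro a ha
      by_contra h
      exact hcon a h ha
    have := trdeg_le_of_injective α0 hinj
    rw [MvPolynomial.trdeg_of_isDomain, MvPolynomial.trdeg_of_isDomain] at this
    simp at this
    exact absurd this (by norm_num)
  set r := f0.totalDegree + 3 with hr
  set φ : Fin 5 → B2 := fun i => α0 (MvPolynomial.X i) with hφ
  let S : Set ℂ := (⋃ i, Set.range fun m => (φ i).coeff m) ∪
    ⋃ i, ⋃ j, Set.range fun m => (MvPolynomial.pderiv j (φ i)).coeff m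
  have hS : S.Countable :=
    (Set.countable_iUnion fun i => Set.countable_range _).union
      (Set.countable_iUnion fun i => Set.countable_iUnion fun j => Set.countable_range _)
  obtain ⟨θ, T, hT, hθ⟩ := generic_exists S hS (Fin 4 ⊕ Fin 4)
  set v : Fin 4 → ℂ := fun i => θ (Sum.inl i) with hv
  set w : Fin 4 → ℂ := fun i => θ (Sum.inr i) with hw
  set e : Fin 4 → ℕ := fun i => r ^ ((i : ℕ) + 1) with he
  have he3 : ∀ i, 2 < e i := fun i =>
    lt_of_lt_of_le (by omega : 2 < r) (Nat.le_self_pow (by omega) r)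
  let G : Fin 5 → A4[X] := Fin.cons X fun i =>
    X ^ e i + (C (MvPolynomial.C (w i)) * X ^ 2 + C (MvPolynomial.C (v i)) * X
      + C (MvPolynomial.X i))
  have hlow : ∀ i, (C (MvPolynomial.C (w i)) * X ^ 2 + C (MvPolynomial.C (v i)) * X
      + C (MvPolynomial.X i) : A4[X]).degree < (X ^ e i : A4[X]).degree := by
    intro i
    refine degree_quadratic_le.trans_lt ?_
    rw [degree_X_pow]
    exact_mod_cast he3 i
  let Θ : MvPolynomial (Fin 5) ℂ →ₐ[ℂ] A4[X] := MvPolynomial.aeval G
  let Θ' : A4[X] →+* MvPolynomial (Fin 5) ℂ :=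
    eval₂RingHom (MvPolynomial.aeval (R := ℂ) fun i : Fin 4 => (MvPolynomial.X i.succ -
      (MvPolynomial.X 0 ^ e i + MvPolynomial.C (w i) * MvPolynomial.X 0 ^ 2
        + MvPolynomial.C (v i) * MvPolynomial.X 0) : MvPolynomial (Fin 5) ℂ)).toRingHom
      (MvPolynomial.X 0)
  have Θ'X : Θ' X = MvPolynomial.X 0 := by simp [Θ']
  have Θ'CC : ∀ c, Θ' (C (MvPolynomial.C c)) = MvPolynomial.C c := fun c => by simp [Θ']
  have Θ'CX : ∀ i, Θ' (C (MvPolynomial.X i)) = MvPolynomial.X i.succ -
      (MvPolynomial.X 0 ^ e i + MvPolynomial.C (w i) * MvPolynomial.X 0 ^ 2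
        + MvPolynomial.C (v i) * MvPolynomial.X 0) := fun i => by simp [Θ']
  have ΘC : ∀ c, Θ (MvPolynomial.C c) = C (MvPolynomial.C c) := fun c => by
    simp [Θ, Polynomial.algebraMap_apply]
  have hΘ : ∀ f, Θ' (Θ f) = f := by
    have : Θ'.comp Θ.toRingHom = RingHom.id _ := by
      apply MvPolynomial.ringHom_ext
      · intro c
        change Θ' (Θ _) = _
        rw [ΘC, Θ'CC]; rfl
      · intro i
        change Θ' (Θ _) = _
        refine Fin.cases ?_ (fun i => ?_) i
        · simp [Θ, G, Θ'X]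
        · simp only [Θ, G, MvPolynomial.aeval_X, Fin.cons_succ, map_add, map_mul, map_pow, Θ'X,
            Θ'CC, Θ'CX, RingHom.id_apply]
          ring
    exact RingHom.congr_fun this
  choose P hP using fun j : Fin 2 => hα0 (MvPolynomial.X j)
  let α : A4[X] →+* B2 := α0.toRingHom.comp Θ'
  let ρ : B2 →+* A4[X] := (Θ.comp (MvPolynomial.aeval P)).toRingHom
  have hαΘ : ∀ f, α (Θ f) = α0 f := fun f => by
    change α0 (Θ' (Θ f)) = _
    rw [hΘ]
  have hρ : ∀ β, α (ρ β) = β := by
    intro β
    change α (Θ (MvPolynomial.aeval P β)) = β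
    rw [hαΘ]
    have : α0.comp (MvPolynomial.aeval P) = AlgHom.id _ _ := by
      apply MvPolynomial.algHom_ext
      intro j; simp [hP]
    exact AlgHom.congr_fun this β
  have hρC : ∀ c : ℂ, ρ (MvPolynomial.C c) = C (MvPolynomial.C c) := by
    intro c
    change Θ (MvPolynomial.aeval P _) = _
    rw [MvPolynomial.aeval_C, MvPolynomial.algebraMap_eq, ΘC]
  have αX : α X = φ 0 := by
    change α0 (Θ' X) = _
    rw [Θ'X]
  have αCX : ∀ i, α (C (MvPolynomial.X i)) = φ i.succ -
      (φ 0 ^ e i + MvPolynomial.C (w i) * φ 0 ^ 2 + MvPolynomial.C (v i) * φ 0) := by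
    intro i
    change α0 (Θ' _) = _
    rw [Θ'CX]
    simp [hφ]
  have evCX : ∀ (y : Fin 2 → ℂ) i, MvPolynomial.eval y (α (C (MvPolynomial.X i))) =
      MvPolynomial.eval y (φ i.succ) - (MvPolynomial.eval y (φ 0) ^ e i
        + w i * MvPolynomial.eval y (φ 0) ^ 2 + v i * MvPolynomial.eval y (φ 0)) := by
    intro y i; simp [αCX]
  have memφ : ∀ (K : Subfield ℂ), S ⊆ K → ∀ y : Fin 2 → ℂ, (∀ j, y j ∈ K) → ∀ i,
      MvPolynomial.eval y (φ i) ∈ K := fun K hK y hy i =>
    MvPolynomial.eval_mem (fun m _ => hK (Or.inl (Set.mem_iUnion.2 ⟨i, m, rfl⟩))) hy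
  have memd : ∀ (K : Subfield ℂ), S ⊆ K → ∀ y : Fin 2 → ℂ, (∀ j, y j ∈ K) → ∀ i j,
      MvPolynomial.eval y (MvPolynomial.pderiv j (φ i)) ∈ K := fun K hK y hy i j =>
    MvPolynomial.eval_mem (fun m _ =>
      hK (Or.inr (Set.mem_iUnion.2 ⟨i, Set.mem_iUnion.2 ⟨j, m, rfl⟩⟩))) hy
  have hSK : ∀ Z : Set ℂ, S ⊆ Subfield.closure (S ∪ Z) := fun Z x hx =>
    Subfield.subset_closure (Or.inl hx)
  have hzK : ∀ {ι : Type} (z : ι → ℂ) (j : ι), z j ∈ Subfield.closure (S ∪ Set.range z) :=
    fun z j => Subfield.subset_closure (Or.inr ⟨j, rfl⟩)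
  obtain ⟨g, hg⟩ := from_generic α ρ hρ hρC
    (by
      obtain ⟨c, hc⟩ := monic_aeval (r := r) G
        (fun j => Fin.cases monic_X (fun i => (monic_X_pow _).add_of_left (hlow i)) j)
        (fun j => Fin.cases (by simp [G]) (fun i => by
          simp only [G, Fin.cons_succ]
          rw [natDegree_add_eq_left_of_degree_lt (hlow i), natDegree_X_pow]
          simp [he]) j) f0 hf0 (fun m hm j =>
            lt_of_le_of_lt ((MvPolynomial.monomial_le_degreeOf j hm).trans
              (MvPolynomial.degreeOf_le_totalDegree f0 j)) (by omega))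
      refine ⟨_, hc, ?_⟩
      change α (c • Θ f0) = 0
      rw [← map_smul, hαΘ, map_smul, hf0', smul_zero])
    (by
      intro y ξ h1 h2
      rw [αX, Fin.sum_univ_two] at h2
      have h3 : ∀ i : Fin 4, MvPolynomial.eval y (MvPolynomial.pderiv 0 (φ i.succ)) * ξ 0 +
          MvPolynomial.eval y (MvPolynomial.pderiv 1 (φ i.succ)) * ξ 1 =
          e i * MvPolynomial.eval y (φ 0) ^ (e i - 1) + 2 * w i * MvPolynomial.eval y (φ 0)
            + v i := by
        intro i
        have := h1 i
        rw [αCX, Fin.sum_univ_two] at this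
        simp only [map_sub, map_add, Derivation.leibniz, Derivation.leibniz_pow,
          MvPolynomial.pderiv_C, smul_eq_mul, nsmul_eq_mul, map_mul, map_pow, map_natCast,
          MvPolynomial.eval_C, mul_zero, add_zero, Nat.cast_ofNat, map_ofNat, Nat.add_one_sub_one,
          pow_one] at this
        linear_combination this + (e i * MvPolynomial.eval y (φ 0) ^ (e i - 1)
          + 2 * w i * MvPolynomial.eval y (φ 0) + v i) * h2
      have key : ∀ η : ℂ, ∀ K : Subfield ℂ, K = Subfield.closure (S ∪ Set.range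
          (Sum.elim w (Sum.elim y fun _ : Unit => η))) → ξ 0 ∈ K → ξ 1 ∈ K → False := by
        intro η K hK k0 k1
        have hy : ∀ j, y j ∈ K := fun j => hK ▸ hzK _ (Sum.inr (Sum.inl j))
        have hwK : ∀ i, w i ∈ K := fun i => hK ▸ hzK _ (Sum.inl i)
        have hSK' : S ⊆ K := hK ▸ hSK _
        have := (hθ _ (Sum.elim w (Sum.elim y fun _ : Unit => η)) (by
          rintro (i | i)
          · rw [← hK]
            have h4 : θ (Sum.inl i) = MvPolynomial.eval y (MvPolynomial.pderiv 0 (φ i.succ)) * ξ 0 +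
                MvPolynomial.eval y (MvPolynomial.pderiv 1 (φ i.succ)) * ξ 1 -
                (e i * MvPolynomial.eval y (φ 0) ^ (e i - 1)
                  + 2 * w i * MvPolynomial.eval y (φ 0)) := by
              rw [h3]; simp [hv]
            rw [h4]
            exact sub_mem (add_mem (mul_mem (memd K hSK' y hy _ _) k0)
              (mul_mem (memd K hSK' y hy _ _) k1))
              (add_mem (mul_mem (natCast_mem K _) (pow_mem (memφ K hSK' y hy _) _))
                (mul_mem (mul_mem (ofNat_mem K 2) (hwK i)) (memφ K hSK' y hy _)))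
          · rw [← hK]; exact hwK i)).1
        simp at this
      by_cases h0 : MvPolynomial.eval y (MvPolynomial.pderiv 0 (φ 0)) = 0
      · have h5 : MvPolynomial.eval y (MvPolynomial.pderiv 1 (φ 0)) ≠ 0 := by
          intro h; rw [h0, h] at h2; simp at h2
        refine key (ξ 0) _ rfl (hzK _ (Sum.inr (Sum.inr ()))) ?_
        have h6 : ξ 1 = (MvPolynomial.eval y (MvPolynomial.pderiv 1 (φ 0)))⁻¹ := by
          rw [h0] at h2
          field_simp
          linear_combination h2
        rw [h6]
        exact inv_mem (memd _ (hSK _) y (fun j => hzK _ (Sum.inr (Sum.inl j))) _ _)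
      · refine key (ξ 1) _ rfl ?_ (hzK _ (Sum.inr (Sum.inr ())))
        have h6 : ξ 0 = (1 - MvPolynomial.eval y (MvPolynomial.pderiv 1 (φ 0)) * ξ 1) /
            MvPolynomial.eval y (MvPolynomial.pderiv 0 (φ 0)) := by
          field_simp
          linear_combination h2
        rw [h6]
        exact div_mem (sub_mem (one_mem _) (mul_mem
          (memd _ (hSK _) y (fun j => hzK _ (Sum.inr (Sum.inl j))) _ _)
          (hzK _ (Sum.inr (Sum.inr ())))))
          (memd _ (hSK _) y (fun j => hzK _ (Sum.inr (Sum.inl j))) _ _))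
    (by
      refine (Set.countable_univ_pi (π := fun _ : Fin 2 => ℂ) (s := fun _ => T)
        fun _ => hT).mono ?_
      rintro y ⟨y', h1, h2⟩ j -
      rw [αX] at h2
      set K := Subfield.closure (S ∪ Set.range (Sum.elim w (Sum.elim y y'))) with hK
      have hy : ∀ j, y j ∈ K := fun j => hzK _ (Sum.inr (Sum.inl j))
      have hy' : ∀ j, y' j ∈ K := fun j => hzK _ (Sum.inr (Sum.inr j))
      have hwK : ∀ i, w i ∈ K := fun i => hzK _ (Sum.inl i)
      have hSK' : S ⊆ K := hSK _
      refine (hθ _ (Sum.elim w (Sum.elim y y')) ?_).2 (by simp) (Sum.inr (Sum.inl j))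
      rintro (i | i)
      · have h3 := h1 i
        rw [evCX, evCX] at h3
        have h4 : θ (Sum.inl i) = (MvPolynomial.eval y (φ i.succ) - MvPolynomial.eval y' (φ i.succ)
            - (MvPolynomial.eval y (φ 0) ^ e i - MvPolynomial.eval y' (φ 0) ^ e i)
            - w i * (MvPolynomial.eval y (φ 0) ^ 2 - MvPolynomial.eval y' (φ 0) ^ 2)) /
            (MvPolynomial.eval y (φ 0) - MvPolynomial.eval y' (φ 0)) := by
          rw [eq_div_iff (sub_ne_zero.2 h2)]
          change v i * _ = _
          linear_combination -h3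
        rw [h4]
        have k := memφ K hSK' y hy
        have k' := memφ K hSK' y' hy'
        exact div_mem (sub_mem (sub_mem (sub_mem (k _) (k' _))
          (sub_mem (pow_mem (k _) _) (pow_mem (k' _) _)))
          (mul_mem (hwK i) (sub_mem (pow_mem (k _) _) (pow_mem (k' _) _)))) (sub_mem (k _) (k' _))
      · exact hwK i)
    (by
      intro y y' y'' h1 h2 h3 h4 h5
      rw [αX] at h3 h4 h5
      set K := Subfield.closure (S ∪ Set.range (Sum.elim y (Sum.elim y' y''))) with hK
      have hSK' : S ⊆ K := hSK _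
      have k := memφ K hSK' y fun j => hzK _ (Sum.inl j)
      have k' := memφ K hSK' y' fun j => hzK _ (Sum.inr (Sum.inl j))
      have k'' := memφ K hSK' y'' fun j => hzK _ (Sum.inr (Sum.inr j))
      have hwK : ∀ i, w i ∈ K := by
        intro i
        have h6 := h1 i
        have h7 := h2 i
        rw [evCX, evCX] at h6 h7
        set t := MvPolynomial.eval y (φ 0)
        set t' := MvPolynomial.eval y' (φ 0)
        set t'' := MvPolynomial.eval y'' (φ 0)
        have h8 : w i = ((MvPolynomial.eval y (φ i.succ) - MvPolynomial.eval y' (φ i.succ)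
            - (t ^ e i - t' ^ e i)) * (t - t'') - (MvPolynomial.eval y (φ i.succ)
            - MvPolynomial.eval y'' (φ i.succ) - (t ^ e i - t'' ^ e i)) * (t - t')) /
            ((t - t') * (t - t'') * (t' - t'')) := by
          rw [eq_div_iff (mul_ne_zero (mul_ne_zero (sub_ne_zero.2 h3) (sub_ne_zero.2 h4))
            (sub_ne_zero.2 h5))]
          linear_combination -(t - t'') * h6 + (t - t') * h7
        rw [h8]
        exact div_mem (sub_mem (mul_mem (sub_mem (sub_mem (k _) (k' _))
          (sub_mem (pow_mem (k _) _) (pow_mem (k' _) _))) (sub_mem (k _) (k'' _)))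
          (mul_mem (sub_mem (sub_mem (k _) (k'' _))
          (sub_mem (pow_mem (k _) _) (pow_mem (k'' _) _))) (sub_mem (k _) (k' _))))
          (mul_mem (mul_mem (sub_mem (k _) (k' _)) (sub_mem (k _) (k'' _))) (sub_mem (k' _) (k'' _)))
      have := (hθ _ (Sum.elim y (Sum.elim y' y'')) (by
        rintro (i | i)
        · have h6 := h1 i
          rw [evCX, evCX] at h6
          have h7 : θ (Sum.inl i) = (MvPolynomial.eval y (φ i.succ)
              - MvPolynomial.eval y' (φ i.succ)
              - (MvPolynomial.eval y (φ 0) ^ e i - MvPolynomial.eval y' (φ 0) ^ e i)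
              - w i * (MvPolynomial.eval y (φ 0) ^ 2 - MvPolynomial.eval y' (φ 0) ^ 2)) /
              (MvPolynomial.eval y (φ 0) - MvPolynomial.eval y' (φ 0)) := by
            rw [eq_div_iff (sub_ne_zero.2 h3)]
            change v i * _ = _
            linear_combination -h6
          rw [h7]
          exact div_mem (sub_mem (sub_mem (sub_mem (k _) (k' _))
            (sub_mem (pow_mem (k _) _) (pow_mem (k' _) _)))
            (mul_mem (hwK i) (sub_mem (pow_mem (k _) _) (pow_mem (k' _) _))))
            (sub_mem (k _) (k' _))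
        · exact hwK i)).1
      simp at this)
  refine ⟨fun i => Θ' (g i), le_antisymm ?_ ?_⟩
  · rw [Ideal.span_le]
    rintro _ ⟨i, rfl⟩
    have : g i ∈ RingHom.ker α := hg ▸ Ideal.subset_span ⟨i, rfl⟩
    exact this
  · intro f hf
    have h1 : Θ f ∈ Ideal.span (Set.range g) := by
      rw [hg, RingHom.mem_ker, hαΘ]; exact hf
    have h2 := Ideal.mem_map_of_mem Θ' h1
    rw [hΘ, Ideal.map_span, ← Set.range_comp] at h2
    exact h2

end Pool.Agent.P.MP_e35cb8_ag
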