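import Pool.Agent.P.MP_e35cb8_ag.Generic

/-!
Unimodular vectors of length at least three over `ℂ[Y₁, Y₂]` can be moved to the first basis
vector by a linear automorphism.
-/

set_option autoImplicit false

namespace Pool.Agent.P.MP_e35cb8_ag

open MvPolynomial

abbrev B2 : Type := MvPolynomial (Fin 2) ℂ

def Reach {B : Type*} [CommRing B] {n : ℕ} (v w : Fin n → B) : Prop :=
  ∃ e : (Fin n → B) ≃ₗ[B] (Fin n → B), e v = w

theorem Reach.trans {B : Type*} [CommRing B] {n : ℕ} {u v w : Fin n → B} (h1 : Reach u v)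
    (h2 : Reach v w) : Reach u w := by
  obtain ⟨e, he⟩ := h1
  obtain ⟨e', he'⟩ := h2
  exact ⟨e.trans e', by simp [he, he']⟩

theorem Reach.symm {B : Type*} [CommRing B] {n : ℕ} {u v : Fin n → B} (h1 : Reach u v) :
    Reach v u := by
  obtain ⟨e, he⟩ := h1
  exact ⟨e.symm, by simp [← he]⟩

theorem reach_tail {B : Type*} [CommRing B] {n : ℕ} (a : B) (b c : Fin n → B) :
    Reach (Fin.cons a b : Fin (n + 1) → B) (Fin.cons a fun i => b i + c i * a) := by
  refine ⟨LinearEquiv.transvection (f := LinearMap.proj 0) (v := (Fin.cons 0 c : Fin (n + 1) → B))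
    (by simp), ?_⟩
  rw [LinearEquiv.transvection.apply]
  funext i
  refine Fin.cases ?_ (fun i => ?_) i <;> simp [mul_comm]

theorem reach_head {B : Type*} [CommRing B] {n : ℕ} (a a' : B) (b : Fin n → B)
    (h : a' - a ∈ Ideal.span (Set.range b)) :
    Reach (Fin.cons a b : Fin (n + 1) → B) (Fin.cons a' b) := by
  obtain ⟨c, hc⟩ := (Submodule.mem_span_range_iff_exists_fun B).1 h
  let ℓ : (Fin (n + 1) → B) →ₗ[B] B := ∑ i : Fin n, c i • LinearMap.proj i.succ
  have hℓ : ∀ x : Fin (n + 1) → B, ℓ x = ∑ i : Fin n, c i * x i.succ := by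
    intro x; simp [ℓ, LinearMap.sum_apply]
  refine ⟨LinearEquiv.transvection (f := ℓ) (v := (Fin.cons 1 0 : Fin (n + 1) → B))
    (by simp [hℓ]), ?_⟩
  rw [LinearEquiv.transvection.apply, hℓ]
  funext i
  refine Fin.cases ?_ (fun i => ?_) i
  · simp only [smul_eq_mul] at hc
    simp [hc]
  · simp

theorem reach_one {B : Type*} [CommRing B] {n : ℕ} (b : Fin n → B) :
    Reach (Fin.cons 1 b : Fin (n + 1) → B) (Fin.cons 1 0) := by
  have := reach_tail 1 b (-b)
  have h : (fun i => b i + (-b) i * 1) = 0 := by funext i; simp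
  rwa [h] at this

theorem reach_sq {B : Type*} [CommRing B] (ξ p : B) (b c : Fin 2 → B)
    (h : ξ * p + ∑ i, c i * b i = 1) :
    Reach (Fin.cons (ξ ^ 2) b : Fin 3 → B) (Fin.cons 1 0) := by
  rw [Fin.sum_univ_two] at h
  let M : Matrix (Fin 3) (Fin 3) B :=
    !![ξ ^ 2, -ξ * c 1 - (b 0 + ξ * c 1), ξ * c 0 + (ξ * c 0 - b 1);
       b 0, c 1 ^ 2, -c 1 * c 0 - p;
       b 1, -c 1 * c 0 + p, c 0 ^ 2]
  have hdet : M.det = 1 := by
    simp only [M, Matrix.det_fin_three, Matrix.of_apply, Matrix.cons_val', Matrix.cons_val_zero,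
      Matrix.cons_val_one, Matrix.cons_val_fin_one, Matrix.cons_val]
    linear_combination (ξ * p + c 0 * b 0 + c 1 * b 1 + 1) * h
  apply Reach.symm
  refine ⟨M.toLinearEquiv' (M.invertibleOfIsUnitDet (by rw [hdet]; exact isUnit_one)), ?_⟩
  change Matrix.toLin' M _ = _
  rw [Matrix.toLin'_apply]
  funext i
  fin_cases i <;> simp [M, Matrix.mulVec, dotProduct, Fin.sum_univ_succ]
  rfl

theorem generic_shift {n : ℕ} (hn : 2 ≤ n) (a : B2) (b : Fin n → B2)
    (h : ∀ y : Fin 2 → ℂ, eval y a = 0 → ¬ ∀ i, eval y (b i) = 0) :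
    ∃ l : Fin n → ℂ, {y : Fin 2 → ℂ | ∀ i, eval y (b i + C (l i) * a) = 0}.Countable ∧
      (3 ≤ n → ∀ y : Fin 2 → ℂ, ¬ ∀ i, eval y (b i + C (l i) * a) = 0) := by
  let S : Set ℂ := Set.range (fun m => coeff m a) ∪ ⋃ i, Set.range (fun m => coeff m (b i))
  have hS : S.Countable :=
    (Set.countable_range _).union (Set.countable_iUnion fun i => Set.countable_range _)
  obtain ⟨l, T, hT, hl⟩ := generic_exists S hS (Fin n)
  have key : ∀ y : Fin 2 → ℂ, (∀ i, eval y (b i + C (l i) * a) = 0) →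
      ∀ i, l i ∈ Subfield.closure (S ∪ Set.range y) := by
    intro y hy i
    have ha : eval y a ≠ 0 := by
      intro ha
      refine h y ha fun i => ?_
      have := hy i
      simpa [ha] using this
    have h1 : l i = -eval y (b i) / eval y a := by
      have := hy i
      simp only [map_add, map_mul, eval_C] at this
      field_simp
      linear_combination this
    have hy' : ∀ j, y j ∈ Subfield.closure (S ∪ Set.range y) := fun j =>
      Subfield.subset_closure (Or.inr ⟨j, rfl⟩)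
    rw [h1]
    refine div_mem (neg_mem (eval_mem (fun m _ => ?_) hy')) (eval_mem (fun m _ => ?_) hy')
    · exact Subfield.subset_closure (Or.inl (Or.inr (Set.mem_iUnion.2 ⟨i, m, rfl⟩)))
    · exact Subfield.subset_closure (Or.inl (Or.inl ⟨m, rfl⟩))
  refine ⟨l, ?_, ?_⟩
  · refine (Set.countable_univ_pi (π := fun _ : Fin 2 => ℂ) (s := fun _ => T) fun _ => hT).mono ?_
    intro y hy j _
    exact (hl (Fin 2) y (key y hy)).2 (by simpa using hn) j
  · intro h3 y hy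
    have := (hl (Fin 2) y (key y hy)).1
    simp at this
    omega

theorem reach_B2 {n : ℕ} (hn : 2 ≤ n) (v : Fin (n + 1) → B2)
    (ℓ : (Fin (n + 1) → B2) →ₗ[B2] B2) (hℓ : ℓ v = 1) : Reach v (Fin.cons 1 0) := by
  classical
  rw [← Fin.cons_self_tail v]
  set a := v 0 with ha
  set b := Fin.tail v with hb
  have h0 : ∀ y : Fin 2 → ℂ, eval y a = 0 → ¬ ∀ i, eval y (b i) = 0 := by
    intro y hy hy'
    rw [LinearMap.pi_apply_eq_sum_univ] at hℓ
    have := congrArg (eval y) hℓ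
    rw [map_sum, map_one, Finset.sum_eq_zero] at this
    · exact zero_ne_one this
    · intro i _
      rw [smul_eq_mul, map_mul]
      have : eval y (v i) = 0 := by
        refine Fin.cases ?_ (fun i => ?_) i
        · exact hy
        · exact hy' i
      rw [this, zero_mul]
  obtain ⟨l, hl1, hl2⟩ := generic_shift hn a b h0
  refine (reach_tail a b fun i => C (l i)).trans ?_
  set b' : Fin n → B2 := fun i => b i + C (l i) * a with hb'
  have hz : ∀ y : Fin 2 → ℂ, (∀ q ∈ Ideal.span (Set.range b'), eval y q = 0) →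
      ∀ i, eval y (b' i) = 0 := fun y hy i => hy _ (Ideal.subset_span ⟨i, rfl⟩)
  by_cases h3 : 3 ≤ n
  · have htop : Ideal.span (Set.range b') = ⊤ := nss_top _ fun y hy => hl2 h3 y (hz y hy)
    exact (reach_head a 1 b' (htop ▸ Submodule.mem_top)).trans (reach_one b')
  · obtain rfl : n = 2 := by omega
    have htop : Ideal.span (Set.range b') ⊔ Ideal.span {a} = ⊤ := by
      apply nss_top
      intro y hy
      have h1 : eval y a = 0 := hy _ (Ideal.mem_sup_right (Ideal.subset_span rfl))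
      refine h0 y h1 fun i => ?_
      have := hz y (fun q hq => hy q (Ideal.mem_sup_left hq)) i
      simpa [hb', h1] using this
    obtain ⟨u, hu, w, hw, huw⟩ := Submodule.mem_sup.1 ((Ideal.eq_top_iff_one _).1 htop)
    obtain ⟨w, rfl⟩ := Ideal.mem_span_singleton'.1 hw
    obtain ⟨m, hm, hma⟩ := alg_of_countable (Ideal.span (Set.range b'))
      (hl1.mono fun y hy => hz y hy) a
    obtain ⟨ξ, hξ⟩ := exists_sq_mod (Ideal.span (Set.range b')) a w (by
      have : a * w - 1 = -u := by linear_combination huw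
      rw [this]; exact neg_mem hu) m hm hma
    refine (reach_head a (ξ ^ 2) b' hξ).trans ?_
    have h1 : 1 - ξ * (ξ * w) ∈ Ideal.span (Set.range b') := by
      have : 1 - ξ * (ξ * w) = u - w * (ξ ^ 2 - a) := by linear_combination -huw
      rw [this]
      exact sub_mem hu (Ideal.mul_mem_left _ _ hξ)
    obtain ⟨c, hc⟩ := (Submodule.mem_span_range_iff_exists_fun B2).1 h1
    refine reach_sq ξ (ξ * w) b' c ?_
    simp only [smul_eq_mul] at hc
    rw [hc]; ring

theorem cut {B : Type*} [CommRing B] {n : ℕ} (v : Fin (n + 1) → B)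
    (h : Reach v (Fin.cons 1 0)) :
    ∃ ι : (Fin n → B) →ₗ[B] (Fin (n + 1) → B), ∀ x, ∃ (t : B) (y : Fin n → B),
      x = t • v + ι y := by
  obtain ⟨e, he⟩ := h
  let κ : (Fin n → B) →ₗ[B] (Fin (n + 1) → B) :=
    { toFun := fun y => Fin.cons 0 y
      map_add' := fun y y' => by
        funext i; refine Fin.cases ?_ (fun i => ?_) i <;> simp
      map_smul' := fun r y => by
        funext i; refine Fin.cases ?_ (fun i => ?_) i <;> simp }
  refine ⟨e.symm.toLinearMap ∘ₗ κ, fun x => ⟨e x 0, Fin.tail (e x), ?_⟩⟩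
  apply e.injective
  rw [map_add, map_smul, he]
  simp only [LinearMap.comp_apply, LinearEquiv.coe_coe, LinearEquiv.apply_symm_apply]
  funext i
  refine Fin.cases ?_ (fun i => ?_) i <;> simp [κ, Fin.tail]

theorem basis5 (v0 v1 v2 : Fin 5 → B2) (ℓ0 ℓ1 ℓ2 : (Fin 5 → B2) →ₗ[B2] B2)
    (h00 : ℓ0 v0 = 1) (h10 : ℓ1 v0 = 0) (h11 : ℓ1 v1 = 1) (h20 : ℓ2 v0 = 0) (h21 : ℓ2 v1 = 0)
    (h22 : ℓ2 v2 = 1) :
    ∃ x2 x3 : Fin 5 → B2, ℓ2 x2 = 0 ∧ ℓ2 x3 = 0 ∧ ∀ x, ∃ t0 t1 a b c : B2,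
      x = t0 • v0 + t1 • v1 + a • v2 + b • x2 + c • x3 := by
  obtain ⟨ι1, hι1⟩ := cut v0 (reach_B2 (by norm_num) v0 ℓ0 h00)
  obtain ⟨s1, y1, hy1⟩ := hι1 v1
  have e1 : ι1 y1 = v1 - s1 • v0 := by rw [hy1]; simp
  obtain ⟨ι2, hι2⟩ := cut y1 (reach_B2 (by norm_num) y1 (ℓ1 ∘ₗ ι1) (by simp [e1, h10, h11]))
  obtain ⟨s2, y2', hy2'⟩ := hι1 v2
  obtain ⟨s3, y2, hy2⟩ := hι2 y2'
  have e2 : ι1 (ι2 y2) = v2 - s2 • v0 - s3 • (v1 - s1 • v0) := by
    rw [hy2', hy2, map_add, map_smul, e1]; abel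
  obtain ⟨ι3, hι3⟩ := cut y2 (reach_B2 (by norm_num) y2 (ℓ2 ∘ₗ ι1 ∘ₗ ι2)
    (by simp [e2, h20, h21, h22]))
  set x2 := ι1 (ι2 (ι3 ![1, 0])) with hx2
  set x3 := ι1 (ι2 (ι3 ![0, 1])) with hx3
  refine ⟨x2 - ℓ2 x2 • v2, x3 - ℓ2 x3 • v2, by simp [h22], by simp [h22], fun x => ?_⟩
  obtain ⟨r0, z1, rfl⟩ := hι1 x
  obtain ⟨r1, z2, rfl⟩ := hι2 z1
  obtain ⟨r2, z3, rfl⟩ := hι3 z2
  have e3 : z3 = z3 0 • ![1, 0] + z3 1 • ![0, 1] := by
    funext i; fin_cases i <;> simp
  refine ⟨r0 - r1 * s1 - r2 * s2 + r2 * s3 * s1, r1 - r2 * s3,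
    r2 + z3 0 * ℓ2 x2 + z3 1 * ℓ2 x3, z3 0, z3 1, ?_⟩
  conv_lhs => rw [e3]
  simp only [map_add, map_smul, e1, e2, ← hx2, ← hx3]
  module

end Pool.Agent.P.MP_e35cb8_ag
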